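import Mathlib

/-! Modulus of a ratio of Gamma values on vertical lines. -/

namespace Pool.Agent.SelPole

open Complex Filter Topology

theorem log_norm_add {z : ℂ} {a : ℝ} (ha : 0 ≤ a) (hz : 2 * (1 + a) ≤ ‖z‖) :
    |Real.log ‖z + a‖ - Real.log ‖z‖ - a * (Real.log ‖z + 1‖ - Real.log ‖z‖)|
      ≤ (a ^ 2 + a) / ‖z‖ ^ 2 := by
  have hz0 : 0 < ‖z‖ := by linarith
  have hz1 : z ≠ 0 := norm_pos_iff.mp hz0
  have key : ∀ w : ℂ, ‖w‖ ≤ 1 / 2 → |Real.log ‖1 + w‖ - w.re| ≤ ‖w‖ ^ 2 := by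
    intro w hw
    have h1 := Complex.norm_log_one_add_sub_self_le (z := w) (by linarith)
    have h2 : |(log (1 + w) - w).re| ≤ ‖log (1 + w) - w‖ := Complex.abs_re_le_norm _
    rw [Complex.sub_re, Complex.log_re] at h2
    refine h2.trans (h1.trans ?_)
    have h3 : (1 - ‖w‖)⁻¹ ≤ 2 := by
      rw [inv_le_comm₀ (by linarith) (by norm_num)]
      linarith
    have h4 := mul_le_mul_of_nonneg_left h3 (sq_nonneg ‖w‖)
    linarith
  have hlog : ∀ b : ℝ, 0 ≤ b → b ≤ 1 + a → |Real.log ‖z + b‖ - Real.log ‖z‖ - ((b : ℂ) / z).re|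
      ≤ b ^ 2 / ‖z‖ ^ 2 := by
    intro b hb hb1
    have hw : ‖(b : ℂ) / z‖ = b / ‖z‖ := by
      rw [norm_div, Complex.norm_real, Real.norm_of_nonneg hb]
    have hw2 : ‖(b : ℂ) / z‖ ≤ 1 / 2 := by
      rw [hw, div_le_iff₀ hz0]; linarith
    have h1 := key _ hw2
    have h2 : Real.log ‖z + b‖ = Real.log ‖z‖ + Real.log ‖1 + (b : ℂ) / z‖ := by
      have h3 : z + b = z * (1 + b / z) := by field_simp
      have h4 : (1 + (b : ℂ) / z) ≠ 0 := by
        intro h
        have : (b : ℂ) / z = -1 := by linear_combination h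
        rw [this] at hw2
        norm_num at hw2
      rw [h3, norm_mul, Real.log_mul hz0.ne' (norm_ne_zero_iff.mpr h4)]
    rw [h2, hw] at *
    rw [div_pow] at h1
    convert h1 using 2
    ring
  have h1 := hlog a ha (by linarith)
  have h2 := hlog 1 zero_le_one (by linarith)
  rw [Complex.ofReal_one] at h2
  have h3 : (((a : ℝ) : ℂ) / z).re = a * ((1 : ℂ) / z).re := by
    rw [show ((a : ℝ) : ℂ) / z = (a : ℂ) * (1 / z) by ring, Complex.re_ofReal_mul]
  rw [h3] at h1
  have h4 := abs_le.mp h1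
  have h5 := abs_le.mp h2
  rw [abs_le]
  have e : (a ^ 2 + a) / ‖z‖ ^ 2 = a ^ 2 / ‖z‖ ^ 2 + a * (1 ^ 2 / ‖z‖ ^ 2) := by ring
  rw [e]
  constructor <;> nlinarith [mul_le_mul_of_nonneg_left h5.1 ha, mul_le_mul_of_nonneg_left h5.2 ha]

theorem tsum_small : Tendsto (fun y : ℝ => ∑' j : ℕ, 1 / ((j : ℝ) ^ 2 + y ^ 2)) atTop (𝓝 0) := by
  have hs : Summable (fun j : ℕ => 1 / ((j : ℝ) ^ 2 + 1)) := by
    refine Summable.of_norm_bounded_eventually_nat (g := fun j : ℕ => 1 / (j : ℝ) ^ 2)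
      (Real.summable_one_div_nat_pow.mpr (by norm_num)) ?_
    filter_upwards [eventually_gt_atTop 0] with j hj
    have : (0 : ℝ) < j := by exact_mod_cast hj
    rw [Real.norm_of_nonneg (by positivity)]
    apply one_div_le_one_div_of_le (by positivity)
    linarith
  have := tendsto_tsum_of_dominated_convergence (𝓕 := atTop)
    (f := fun (y : ℝ) (j : ℕ) => 1 / ((j : ℝ) ^ 2 + y ^ 2)) (g := fun _ => (0 : ℝ)) hs ?_ ?_
  · simpa using this
  · intro j
    have h1 : Tendsto (fun y : ℝ => (j : ℝ) ^ 2 + y ^ 2) atTop atTop :=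
      tendsto_atTop_add_const_left _ _ (tendsto_pow_atTop two_ne_zero)
    simp only [one_div]
    exact h1.inv_tendsto_atTop
  · filter_upwards [eventually_ge_atTop 1] with y hy j
    rw [Real.norm_of_nonneg (by positivity)]
    apply one_div_le_one_div_of_le (by positivity)
    nlinarith

theorem summable_y {y : ℝ} (hy : 1 ≤ y) : Summable (fun j : ℕ => 1 / ((j : ℝ) ^ 2 + y ^ 2)) := by
  refine Summable.of_norm_bounded_eventually_nat (g := fun j : ℕ => 1 / (j : ℝ) ^ 2)
    (Real.summable_one_div_nat_pow.mpr (by norm_num)) ?_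
  filter_upwards [eventually_gt_atTop 0] with j hj
  have : (0 : ℝ) < j := by exact_mod_cast hj
  rw [Real.norm_of_nonneg (by positivity)]
  apply one_div_le_one_div_of_le (by positivity)
  nlinarith

theorem log_GammaSeq {z : ℂ} (hz : 0 < z.re) {n : ℕ} (hn : n ≠ 0) :
    Real.log ‖GammaSeq z n‖ = z.re * Real.log n + Real.log (n.factorial : ℝ)
      - ∑ j ∈ Finset.range (n + 1), Real.log ‖z + j‖ := by
  have hn0 : (0 : ℝ) < n := by exact_mod_cast Nat.pos_of_ne_zero hn
  have hj : ∀ j : ℕ, z + j ≠ 0 := by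
    intro j h
    have := congrArg Complex.re h
    simp at this
    have h2 : (0 : ℝ) ≤ j := Nat.cast_nonneg j
    linarith
  rw [GammaSeq, norm_div, norm_mul, norm_prod, Real.log_div, Real.log_mul, Real.log_prod]
  · congr 2
    · rw [Complex.norm_natCast_cpow_of_pos (Nat.pos_of_ne_zero hn), Real.log_rpow hn0]
    · simp
  · intro j _; exact norm_ne_zero_iff.mpr (hj j)
  · rw [Complex.norm_natCast_cpow_of_pos (Nat.pos_of_ne_zero hn)]
    positivity
  · simp [Nat.factorial_ne_zero]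
  · apply mul_ne_zero
    · rw [Complex.norm_natCast_cpow_of_pos (Nat.pos_of_ne_zero hn)]; positivity
    · simp [Nat.factorial_ne_zero]
  · apply Finset.prod_ne_zero_iff.mpr
    intro j _; exact norm_ne_zero_iff.mpr (hj j)

theorem gamma_bound {x a y : ℝ} (hx : 0 < x) (ha : 0 ≤ a) (hy : 2 * (1 + a) ≤ y) :
    |Real.log ‖Gamma ((x : ℂ) + a + y * I)‖ - Real.log ‖Gamma ((x : ℂ) + y * I)‖
      - a * Real.log ‖(x : ℂ) + y * I‖| ≤ (a ^ 2 + a) * ∑' j : ℕ, 1 / ((j : ℝ) ^ 2 + y ^ 2) := by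
  set z : ℂ := (x : ℂ) + y * I with hz
  have hzre : z.re = x := by simp [hz]
  have hzim : z.im = y := by simp [hz]
  have hza : (x : ℂ) + a + y * I = z + a := by rw [hz]; ring
  rw [hza]
  have hy1 : 1 ≤ y := by linarith
  have hzar : 0 < (z + a).re := by simp [hzre]; linarith
  have hzr : 0 < z.re := by rw [hzre]; exact hx
  have hΓ1 : Gamma (z + a) ≠ 0 := Complex.Gamma_ne_zero_of_re_pos hzar
  have hΓ2 : Gamma z ≠ 0 := Complex.Gamma_ne_zero_of_re_pos hzr
  -- norm bounds
  have hnorm : ∀ j : ℕ, (j : ℝ) ^ 2 + y ^ 2 ≤ ‖z + j‖ ^ 2 := by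
    intro j
    rw [← Complex.normSq_eq_norm_sq, Complex.normSq_apply]
    simp only [Complex.add_re, Complex.add_im, Complex.natCast_re, Complex.natCast_im, hzre, hzim]
    have : (0 : ℝ) ≤ j := Nat.cast_nonneg j
    nlinarith
  have hnorm2 : ∀ j : ℕ, 2 * (1 + a) ≤ ‖z + j‖ := by
    intro j
    have h1 := Complex.abs_im_le_norm (z + j)
    simp only [Complex.add_im, Complex.natCast_im, hzim, add_zero] at h1
    rw [abs_of_pos (by linarith)] at h1
    linarith
  have hL : Tendsto (fun n : ℕ => (Real.log ‖GammaSeq (z + a) n‖ - Real.log ‖GammaSeq z n‖)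
      - a * (Real.log n - Real.log ‖z + (n + 1 : ℕ)‖) - a * Real.log ‖z‖) atTop
      (𝓝 ((Real.log ‖Gamma (z + a)‖ - Real.log ‖Gamma z‖) - a * 0 - a * Real.log ‖z‖)) := by
    refine Tendsto.sub (Tendsto.sub (Tendsto.sub ?_ ?_) ?_) tendsto_const_nhds
    · exact ((GammaSeq_tendsto_Gamma (z + a)).norm).log (norm_ne_zero_iff.mpr hΓ1)
    · exact ((GammaSeq_tendsto_Gamma z).norm).log (norm_ne_zero_iff.mpr hΓ2)
    · refine Tendsto.const_mul a ?_
      -- log n - log |z+n+1| → 0
      have h1 : Tendsto (fun n : ℕ => ‖(z + (n + 1 : ℕ)) / (n : ℂ)‖) atTop (𝓝 1) := by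
        have h2 : Tendsto (fun n : ℕ => (z + 1) / (n : ℂ) + 1) atTop (𝓝 (0 + 1)) :=
          (tendsto_const_div_atTop_nhds_zero_nat (z + 1)).add tendsto_const_nhds
        have h3 : Tendsto (fun n : ℕ => (z + (n + 1 : ℕ)) / (n : ℂ)) atTop (𝓝 (0 + 1)) := by
          refine h2.congr' ?_
          filter_upwards [eventually_gt_atTop 0] with n hn
          have : (n : ℂ) ≠ 0 := by exact_mod_cast hn.ne'
          push_cast
          field_simp
          ring
        simpa using h3.norm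
      have h4 := (h1.log one_ne_zero).neg
      rw [Real.log_one, neg_zero] at h4
      refine h4.congr' ?_
      filter_upwards [eventually_gt_atTop 0] with n hn
      have hn0 : (0 : ℝ) < n := by exact_mod_cast hn
      have hne : ‖z + (n + 1 : ℕ)‖ ≠ 0 := by
        have := hnorm2 (n + 1)
        linarith
      rw [norm_div, Real.log_div hne (by simp; omega)]
      simp
  rw [mul_zero, sub_zero] at hL
  refine le_of_tendsto hL.abs ?_
  filter_upwards [eventually_gt_atTop 0] with n hn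
  rw [log_GammaSeq hzar hn.ne', log_GammaSeq hzr hn.ne']
  have e1 : ((z + a).re * Real.log n + Real.log (n.factorial : ℝ)
        - ∑ j ∈ Finset.range (n + 1), Real.log ‖z + a + j‖
      - (z.re * Real.log n + Real.log (n.factorial : ℝ)
        - ∑ j ∈ Finset.range (n + 1), Real.log ‖z + j‖))
      - a * (Real.log n - Real.log ‖z + (n + 1 : ℕ)‖) - a * Real.log ‖z‖
      = - ∑ j ∈ Finset.range (n + 1), (Real.log ‖z + j + a‖ - Real.log ‖z + j‖
          - a * (Real.log ‖z + j + 1‖ - Real.log ‖z + j‖)) := by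
    have e2 : ∑ j ∈ Finset.range (n + 1), (Real.log ‖z + j + 1‖ - Real.log ‖z + j‖)
        = Real.log ‖z + (n + 1 : ℕ)‖ - Real.log ‖z‖ := by
      have := Finset.sum_range_sub (fun j : ℕ => Real.log ‖z + j‖) (n + 1)
      simp only [Nat.cast_zero, add_zero] at this
      rw [← this]
      refine Finset.sum_congr rfl (fun j _ => ?_)
      push_cast
      rw [add_assoc]
    simp only [Finset.sum_sub_distrib, ← Finset.mul_sum]
    rw [Finset.sum_sub_distrib] at e2
    have e3 : (z + a).re = z.re + a := by simp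
    rw [e3]
    have e4 : ∀ j : ℕ, z + a + j = z + j + a := fun j => by ring
    simp only [e4]
    linear_combination (-a) * e2
  rw [e1, abs_neg]
  refine (Finset.abs_sum_le_sum_abs _ _).trans ?_
  calc ∑ j ∈ Finset.range (n + 1), |Real.log ‖z + j + a‖ - Real.log ‖z + j‖
          - a * (Real.log ‖z + j + 1‖ - Real.log ‖z + j‖)|
      ≤ ∑ j ∈ Finset.range (n + 1), (a ^ 2 + a) * (1 / ((j : ℝ) ^ 2 + y ^ 2)) := by
        refine Finset.sum_le_sum (fun j _ => ?_)
        refine (log_norm_add ha (hnorm2 j)).trans ?_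
        rw [mul_one_div]
        apply div_le_div_of_nonneg_left (by positivity) (by positivity) (hnorm j)
    _ = (a ^ 2 + a) * ∑ j ∈ Finset.range (n + 1), (1 / ((j : ℝ) ^ 2 + y ^ 2)) := by
        rw [Finset.mul_sum]
    _ ≤ _ := by
        refine mul_le_mul_of_nonneg_left ?_ (by positivity)
        exact (summable_y hy1).sum_le_tsum _ (fun j _ => by positivity)

/-- `log |Γ(x+a+iy)| - log |Γ(x+iy)| - a log y → 0` as `y → ∞`. -/
theorem gamma_ratio {x a : ℝ} (hx : 0 < x) (ha : 0 ≤ a) :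
    Tendsto (fun y : ℝ => Real.log ‖Gamma ((x : ℂ) + a + y * I)‖
      - Real.log ‖Gamma ((x : ℂ) + y * I)‖ - a * Real.log y) atTop (𝓝 0) := by
  have h1 : Tendsto (fun y : ℝ => Real.log ‖Gamma ((x : ℂ) + a + y * I)‖
      - Real.log ‖Gamma ((x : ℂ) + y * I)‖ - a * Real.log ‖(x : ℂ) + y * I‖) atTop (𝓝 0) := by
    have h2 : Tendsto (fun y : ℝ => (a ^ 2 + a) * ∑' j : ℕ, 1 / ((j : ℝ) ^ 2 + y ^ 2)) atTop
        (𝓝 0) := by
      have := tsum_small.const_mul (a ^ 2 + a)
      rwa [mul_zero] at this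
    rw [tendsto_zero_iff_abs_tendsto_zero]
    refine tendsto_of_tendsto_of_tendsto_of_le_of_le' tendsto_const_nhds h2 ?_ ?_
    · filter_upwards with y using abs_nonneg _
    · filter_upwards [eventually_ge_atTop (2 * (1 + a))] with y hy using gamma_bound hx ha hy
  have h3 : Tendsto (fun y : ℝ => Real.log ‖(x : ℂ) + y * I‖ - Real.log y) atTop (𝓝 0) := by
    have h4 : Tendsto (fun y : ℝ => ‖((x / y : ℝ) : ℂ) + I‖) atTop (𝓝 1) := by
      have h5 : Tendsto (fun y : ℝ => ((x / y : ℝ) : ℂ) + I) atTop (𝓝 ((0 : ℝ) + I)) :=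
        ((Complex.continuous_ofReal.tendsto 0).comp
          (tendsto_const_nhds.div_atTop tendsto_id)).add tendsto_const_nhds
      simpa using h5.norm
    have h6 := h4.log one_ne_zero
    rw [Real.log_one] at h6
    refine h6.congr' ?_
    filter_upwards [eventually_gt_atTop 0] with y hy
    have e : (x : ℂ) + y * I = (y : ℂ) * (((x / y : ℝ) : ℂ) + I) := by
      have : (y : ℂ) ≠ 0 := by exact_mod_cast hy.ne'
      push_cast
      field_simp
    have hne : ((x / y : ℝ) : ℂ) + I ≠ 0 := by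
      intro h
      have := congrArg Complex.im h
      simp at this
    rw [e, norm_mul, Complex.norm_real, Real.norm_of_nonneg hy.le,
      Real.log_mul hy.ne' (norm_ne_zero_iff.mpr hne)]
    ring
  have := h1.add (h3.const_mul a)
  rw [mul_zero, add_zero] at this
  refine this.congr (fun y => ?_)
  ring

end Pool.Agent.SelPole
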