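import Pool.Agent.SelPole.AlmostPer

/-! Rigidity: two Dirichlet series with Euler product and functional equation whose
log-derivative coefficients differ by an absolutely summable amount across the critical line
have the same log-derivative coefficients. -/

namespace Pool.Agent.SelPole

open Complex Filter Topology Set

/-- Working class: `F` is meromorphic with at most a pole at `1`, does not vanish for `Re s > 1`,
`-F'/F = ∑ c(n) n^(-s)` there, and `|F(σ+it)| = X(t) |F(1-σ+it)|` with
`log X(t) = (1-2σ)(D log t + κ) + o(1)`. -/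
structure EulerFE (F : ℂ → ℂ) (c : ℕ → ℂ) : Prop where
  cont : ∃ (m : ℕ) (g : ℂ → ℂ), Differentiable ℂ g ∧ ∀ s : ℂ, s ≠ 1 → g s = (s - 1) ^ m * F s
  ne : ∀ s : ℂ, 1 < s.re → F s ≠ 0
  one : c 1 = 0
  summ : ∀ s : ℂ, 1 < s.re → LSeriesSummable c s
  ld : ∀ s : ℂ, 1 < s.re → HasDerivAt F (-LSeries c s * F s) s
  fe : ∃ D κ : ℝ, ∀ σ : ℝ, 0 < σ → σ < 1 / 2 → ∃ X : ℝ → ℝ, (∀ᶠ t in atTop, 0 < X t) ∧
    (∀ᶠ t : ℝ in atTop, ‖F ((σ : ℂ) + t * I)‖ = X t * ‖F (((1 - σ : ℝ) : ℂ) + t * I)‖) ∧
    Tendsto (fun t => Real.log (X t) - (1 - 2 * σ) * (D * Real.log t + κ)) atTop (𝓝 0)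

/-- the coefficients `e(n)/log n` -/
noncomputable def unlog (e : ℕ → ℂ) (n : ℕ) : ℂ := e n / Real.log n

theorem unlog_norm (e : ℕ → ℂ) (h1 : e 1 = 0) {n : ℕ} (hn : n ≠ 0) :
    ‖unlog e n‖ ≤ (1 / Real.log 2) * ‖e n‖ := by
  have hl2 : 0 < Real.log 2 := Real.log_pos (by norm_num)
  by_cases hn1 : n = 1
  · subst hn1
    simp [unlog, h1]
  · have h2 : 2 ≤ n := by omega
    have h3 : Real.log 2 ≤ Real.log n := Real.log_le_log (by norm_num) (by exact_mod_cast h2)
    rw [unlog, norm_div, Complex.norm_real, Real.norm_of_nonneg (by linarith)]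
    rw [div_eq_mul_one_div, mul_comm]
    exact mul_le_mul_of_nonneg_right (one_div_le_one_div_of_le hl2 h3) (norm_nonneg _)

theorem unlog_summable {e : ℕ → ℂ} (h1 : e 1 = 0) {s : ℂ} (hs : LSeriesSummable e s) :
    LSeriesSummable (unlog e) s := by
  have h2 : Summable (fun n => (1 / Real.log 2) * ‖LSeries.term e s n‖) := hs.norm.mul_left _
  refine Summable.of_norm_bounded h2 (fun n => ?_)
  by_cases hn : n = 0
  · subst hn; simp
  · rw [LSeries.norm_term_eq, LSeries.norm_term_eq, if_neg hn, if_neg hn]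
    rw [← mul_div_assoc]
    exact div_le_div_of_nonneg_right (unlog_norm e h1 hn) (by positivity)

theorem logMul_unlog {e : ℕ → ℂ} (h1 : e 1 = 0) {n : ℕ} (hn : n ≠ 0) :
    LSeries.logMul (unlog e) n = e n := by
  by_cases hn1 : n = 1
  · subst hn1; simp [LSeries.logMul, h1]
  · have h2 : 2 ≤ n := by omega
    have h3 : 0 < Real.log n := Real.log_pos (by exact_mod_cast h2)
    have h4 : (Real.log n : ℂ) ≠ 0 := by exact_mod_cast h3.ne'
    rw [LSeries.logMul, unlog, ← Complex.natCast_log]
    field_simp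

/-- The relation `R = C exp(ℓ) P` in the half-plane of absolute convergence of the difference of
the log-derivative series. -/
theorem quotient {P R : ℂ → ℂ} {p q : ℕ → ℂ} (hP : EulerFE P p) (hR : EulerFE R q) {β : ℝ}
    (hβ : β ≤ 1) (hs : LSeries.abscissaOfAbsConv (q - p) ≤ β) :
    ∃ C : ℂ, C ≠ 0 ∧ ∀ s : ℂ, β < s.re → s ≠ 1 →
      R s = C * exp (LSeries (unlog (q - p)) s) * P s := by
  set e : ℕ → ℂ := q - p with he
  have he1 : e 1 = 0 := by simp [he, hP.one, hR.one]
  have hab : LSeries.abscissaOfAbsConv (unlog e) ≤ β := by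
    refine LSeries.abscissaOfAbsConv_le_of_forall_lt_LSeriesSummable (fun y hy => ?_)
    apply unlog_summable he1
    apply LSeriesSummable_of_abscissaOfAbsConv_lt_re
    refine lt_of_le_of_lt hs ?_
    exact_mod_cast (by simpa using hy)
  set l : ℂ → ℂ := LSeries (unlog e) with hl
  have hld : ∀ s : ℂ, β < s.re → HasDerivAt l (-LSeries e s) s := by
    intro s hs'
    have h1 : LSeries.abscissaOfAbsConv (unlog e) < s.re := lt_of_le_of_lt hab (by exact_mod_cast hs')
    have h2 := LSeries_hasDerivAt h1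
    have h3 : LSeries (LSeries.logMul (unlog e)) s = LSeries e s :=
      LSeries_congr (fun hn => logMul_unlog he1 hn) s
    rw [h3] at h2
    exact h2
  set U : Set ℂ := {s | 1 < s.re} with hU
  have hUo : IsOpen U := isOpen_lt continuous_const continuous_re
  have hUc : IsPreconnected U := (convex_halfSpace_re_gt 1).isPreconnected
  set V : Set ℂ := {s | β < s.re} with hV
  have hVo : IsOpen V := isOpen_lt continuous_const continuous_re
  have hVc : IsPreconnected V := (convex_halfSpace_re_gt β).isPreconnected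
  have hUV : U ⊆ V := fun s hs' => lt_of_le_of_lt hβ hs'
  -- constancy
  set Ψ : ℂ → ℂ := fun s => R s * exp (-l s) / P s with hΨ
  have hΨd : ∀ s ∈ U, HasDerivAt Ψ 0 s := by
    intro s hs'
    have h1 : HasDerivAt Ψ _ s :=
      ((hR.ld s hs').mul ((hld s (hUV hs')).neg.cexp)).div (hP.ld s hs') (hP.ne s hs')
    have h2 : LSeries e s = LSeries q s - LSeries p s :=
      LSeries_sub (hR.summ s hs') (hP.summ s hs')
    refine h1.congr_deriv ?_
    simp only [Pi.neg_apply, Pi.mul_apply]
    rw [h2]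
    have := hP.ne s hs'
    field_simp
    ring
  obtain ⟨C, hC⟩ := hUo.exists_is_const_of_deriv_eq_zero hUc
    (fun s hs' => (hΨd s hs').differentiableAt.differentiableWithinAt)
    (fun s hs' => (hΨd s hs').deriv)
  have hRU : ∀ s ∈ U, R s = C * exp (l s) * P s := by
    intro s hs'
    have h1 := hC s hs'
    simp only [hΨ] at h1
    have h2 := hP.ne s hs'
    rw [div_eq_iff h2] at h1
    have h3 : exp (l s) * exp (-l s) = 1 := by rw [← Complex.exp_add]; simp
    linear_combination exp (l s) * h1 - R s * h3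
  have hC0 : C ≠ 0 := by
    intro h
    have h2 : (2 : ℂ) ∈ U := by simp [hU]
    have h1 := hRU 2 h2
    rw [h, zero_mul, zero_mul] at h1
    exact hR.ne 2 h2 h1
  refine ⟨C, hC0, ?_⟩
  obtain ⟨mP, gP, hgP, hgPe⟩ := hP.cont
  obtain ⟨mR, gR, hgR, hgRe⟩ := hR.cont
  have hlan : AnalyticOnNhd ℂ l V :=
    DifferentiableOn.analyticOnNhd
      (fun s hs' => (hld s hs').differentiableAt.differentiableWithinAt) hVo
  have hEq : Set.EqOn (fun s => gR s * (s - 1) ^ mP) (fun s => C * exp (l s) * gP s * (s - 1) ^ mR) V := by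
    refine AnalyticOnNhd.eqOn_of_preconnected_of_eventuallyEq (𝕜 := ℂ) (z₀ := 2) ?_ ?_ hVc (hUV (by simp [hU])) ?_
    · refine DifferentiableOn.analyticOnNhd (fun s hs' => ?_) hVo
      have h2 := hgR s
      exact DifferentiableAt.differentiableWithinAt (by fun_prop)
    · refine DifferentiableOn.analyticOnNhd (fun s hs' => ?_) hVo
      have h1 := (hld s hs').differentiableAt
      have h2 := hgP s
      exact DifferentiableAt.differentiableWithinAt (by fun_prop)
    · filter_upwards [hUo.mem_nhds (show (2 : ℂ) ∈ U by simp [hU])] with s hs'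
      have hs1 : s ≠ 1 := by
        intro h; rw [h] at hs'; simp [hU] at hs'
      rw [hgRe s hs1, hgPe s hs1, hRU s hs']
      ring
  intro s hs' hs1
  have h1 := hEq hs'
  simp only at h1
  rw [hgRe s hs1, hgPe s hs1] at h1
  have h2 : (s - 1) ≠ 0 := sub_ne_zero.mpr hs1
  have h3 : (s - 1) ^ mR * (s - 1) ^ mP ≠ 0 := mul_ne_zero (pow_ne_zero _ h2) (pow_ne_zero _ h2)
  apply mul_left_cancel₀ h3
  linear_combination h1

/-- zeros on a vertical line are nowhere dense -/
theorem dense_nonzero {P : ℂ → ℂ} {p : ℕ → ℂ} (hP : EulerFE P p) {x : ℝ} (hx : x ≠ 1) :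
    Dense {t : ℝ | P ((x : ℂ) + t * I) ≠ 0} := by
  obtain ⟨m, g, hg, hge⟩ := hP.cont
  rw [dense_iff_inter_open]
  intro W hW hWne
  obtain ⟨t0, ht0⟩ := hWne
  by_contra hcon
  rw [Set.not_nonempty_iff_eq_empty] at hcon
  have hz : ∀ t ∈ W, P ((x : ℂ) + t * I) = 0 := by
    intro t ht
    by_contra h
    have : t ∈ W ∩ {t : ℝ | P ((x : ℂ) + t * I) ≠ 0} := ⟨ht, h⟩
    rw [hcon] at this
    exact this
  have hgz : ∀ t ∈ W, g ((x : ℂ) + t * I) = 0 := by
    intro t ht
    rw [hge, hz t ht, mul_zero]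
    intro h
    have := congrArg Complex.re h
    simp at this
    exact hx this
  set z0 : ℂ := (x : ℂ) + t0 * I with hz0
  have hfreq : ∃ᶠ z in 𝓝[≠] z0, g z = 0 := by
    have hcont : Continuous (fun t : ℝ => (x : ℂ) + t * I) := by fun_prop
    have hinj : Function.Injective (fun t : ℝ => (x : ℂ) + t * I) := by
      intro a b hab
      have := congrArg Complex.im hab
      simpa using this
    have htend : Tendsto (fun t : ℝ => (x : ℂ) + t * I) (𝓝[≠] t0) (𝓝[≠] z0) := by
      refine tendsto_nhdsWithin_of_tendsto_nhds_of_eventually_within _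
        ((hcont.tendsto t0).mono_left nhdsWithin_le_nhds) ?_
      filter_upwards [self_mem_nhdsWithin] with t ht h
      exact ht (hinj h)
    have hev : ∀ᶠ t : ℝ in 𝓝[≠] t0, g ((x : ℂ) + t * I) = 0 := by
      filter_upwards [mem_nhdsWithin_of_mem_nhds (hW.mem_nhds ht0)] with t ht using hgz t ht
    exact htend.frequently hev.frequently
  have hzero := (hg.differentiableOn.analyticOnNhd isOpen_univ).eqOn_zero_of_preconnected_of_frequently_eq_zero
    isPreconnected_univ (Set.mem_univ z0) hfreq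
  have h2 := hzero (Set.mem_univ (2 : ℂ))
  simp only [Pi.zero_apply] at h2
  rw [hge 2 (by norm_num)] at h2
  have h3 := hP.ne 2 (by simp)
  norm_num at h2
  exact h3 h2

theorem rigid {P R : ℂ → ℂ} {p q : ℕ → ℂ} (hP : EulerFE P p) (hR : EulerFE R q) {β : ℝ}
    (hβ : β < 1 / 2) (hs : LSeries.abscissaOfAbsConv (q - p) ≤ β) :
    ∀ n : ℕ, 2 ≤ n → q n = p n := by
  obtain ⟨C, hC0, hC⟩ := quotient hP hR (by linarith) hs
  set e : ℕ → ℂ := q - p with he
  have he1 : e 1 = 0 := by simp [he, hP.one, hR.one]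
  obtain ⟨σ, hσβ, hσ⟩ := exists_between (max_lt hβ (by norm_num : (0 : ℝ) < 1 / 2))
  have hσ0 : 0 < σ := lt_of_le_of_lt (le_max_right _ _) hσβ
  have hσβ' : β < σ := lt_of_le_of_lt (le_max_left _ _) hσβ
  obtain ⟨DP, κP, hfeP⟩ := hP.fe
  obtain ⟨DR, κR, hfeR⟩ := hR.fe
  obtain ⟨XP, hXP0, hXP, hXPl⟩ := hfeP σ hσ0 hσ
  obtain ⟨XR, hXR0, hXR, hXRl⟩ := hfeR σ hσ0 hσ
  set l : ℂ → ℂ := LSeries (unlog e) with hl
  set φ : ℝ → ℝ := fun t => (l ((σ : ℂ) + t * I)).re - (l (((1 - σ : ℝ) : ℂ) + t * I)).re with hφ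
  -- the coefficient sequence
  set d : ℕ → ℂ := fun n => if n = 0 then 0 else
    unlog e n * (((n : ℝ) ^ (-σ) - (n : ℝ) ^ (-(1 - σ)) : ℝ) : ℂ) with hd
  have hsum : ∀ y : ℝ, β < y → Summable (fun n => ‖LSeries.term (unlog e) (y : ℂ) n‖) := by
    intro y hy
    have h1 : LSeriesSummable (unlog e) (y : ℂ) := by
      apply unlog_summable he1
      apply LSeriesSummable_of_abscissaOfAbsConv_lt_re
      exact lt_of_le_of_lt hs (by simpa using hy)
    exact h1.norm
  have hterm : ∀ (y t : ℝ) (n : ℕ), LSeries.term (unlog e) ((y : ℂ) + t * I) n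
      = (if n = 0 then 0 else unlog e n * (((n : ℝ) ^ (-y) : ℝ) : ℂ)) * osc n t := by
    intro y t n
    by_cases hn : n = 0
    · simp [hn]
    · rw [LSeries.term_of_ne_zero hn, if_neg hn]
      have hn0 : (n : ℂ) ≠ 0 := by exact_mod_cast hn
      have hn1 : (0 : ℝ) < n := by exact_mod_cast Nat.pos_of_ne_zero hn
      rw [Complex.cpow_add _ _ hn0, osc, div_eq_mul_inv, mul_inv, mul_assoc]
      have h1 : ((n : ℂ) ^ (y : ℂ))⁻¹ = (((n : ℝ) ^ (-y) : ℝ) : ℂ) := by
        rw [Real.rpow_neg hn1.le, Complex.ofReal_inv, Complex.ofReal_cpow hn1.le,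
          Complex.ofReal_natCast]
      have h2 : ((n : ℂ) ^ ((t : ℂ) * I))⁻¹ = exp (-(Real.log n : ℂ) * t * I) := by
        rw [Complex.cpow_def_of_ne_zero hn0, ← Complex.exp_neg, ← Complex.natCast_log]
        congr 1
        ring
      rw [h1, h2]
  have hφ2 : ∀ t, φ t = (∑' n, d n * osc n t).re := by
    intro t
    have hs1 : LSeriesSummable (unlog e) ((σ : ℂ) + t * I) := by
      apply unlog_summable he1
      apply LSeriesSummable_of_abscissaOfAbsConv_lt_re
      exact lt_of_le_of_lt hs (by simpa using hσβ')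
    have hs2 : LSeriesSummable (unlog e) (((1 - σ : ℝ) : ℂ) + t * I) := by
      apply unlog_summable he1
      apply LSeriesSummable_of_abscissaOfAbsConv_lt_re
      refine lt_of_le_of_lt hs ?_
      have h : β < (((1 - σ : ℝ) : ℂ) + t * I).re := by simp; linarith
      exact_mod_cast h
    simp only [hφ, hl]
    rw [← Complex.sub_re]
    congr 1
    rw [LSeries, LSeries, ← Summable.tsum_sub hs1 hs2]
    refine tsum_congr (fun n => ?_)
    rw [hterm, hterm]
    simp only [hd]
    by_cases hn : n = 0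
    · simp [hn]
    · simp only [hn, if_false]
      push_cast
      ring
  have hdsum : Summable (fun n => ‖d n‖) := by
    have h1 := (hsum σ hσβ').add (hsum (1 - σ) (by linarith))
    refine Summable.of_nonneg_of_le (fun n => norm_nonneg _) (fun n => ?_) h1
    by_cases hn : n = 0
    · simp [hd, hn]
    · have hn1 : (0 : ℝ) < n := by exact_mod_cast Nat.pos_of_ne_zero hn
      simp only [hd, hn, if_false]
      rw [LSeries.norm_term_eq, LSeries.norm_term_eq, if_neg hn, if_neg hn, norm_mul,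
        Complex.norm_real]
      have h2 : ‖(n : ℝ) ^ (-σ) - (n : ℝ) ^ (-(1 - σ))‖ ≤ (n : ℝ) ^ (-σ) + (n : ℝ) ^ (-(1 - σ)) := by
        refine (norm_sub_le _ _).trans ?_
        rw [Real.norm_of_nonneg (by positivity), Real.norm_of_nonneg (by positivity)]
      have h3 := mul_le_mul_of_nonneg_left h2 (norm_nonneg (unlog e n))
      refine h3.trans (le_of_eq ?_)
      simp only [Complex.ofReal_re]
      rw [Real.rpow_neg hn1.le, Real.rpow_neg hn1.le]
      ring
  have hφb : ∀ t, |φ t| ≤ ∑' n, ‖d n‖ := by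
    intro t
    rw [hφ2]
    refine (Complex.abs_re_le_norm _).trans ?_
    refine (norm_tsum_le_tsum_norm ?_).trans ?_
    · refine hdsum.congr (fun n => ?_)
      rw [norm_mul, norm_osc, mul_one]
    · refine le_of_eq (tsum_congr (fun n => ?_))
      rw [norm_mul, norm_osc, mul_one]
  have hφc : Continuous φ := by
    have : φ = fun t => (∑' n, d n * osc n t).re := funext hφ2
    rw [this]
    apply Complex.continuous_re.comp
    apply continuous_tsum (u := fun n => ‖d n‖)
    · intro n
      simp only [osc]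
      fun_prop
    · exact hdsum
    · intro n t; rw [norm_mul, norm_osc, mul_one]
  -- the identity off the zeros
  set N : Set ℝ := {t : ℝ | P (((1 - σ : ℝ) : ℂ) + t * I) ≠ 0} with hN
  have hNd : Dense N := dense_nonzero hP (by linarith)
  have hid : ∀ᶠ t in atTop, t ∈ N → φ t = Real.log (XR t) - Real.log (XP t) := by
    filter_upwards [hXP0, hXP, hXR0, hXR, eventually_gt_atTop 0] with t h1 h2 h3 h4 h5 h6
    have hne1 : ((σ : ℂ) + t * I) ≠ 1 := by
      intro h
      have := congrArg Complex.im h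
      simp at this
      linarith
    have hne2 : (((1 - σ : ℝ) : ℂ) + t * I) ≠ 1 := by
      intro h
      have := congrArg Complex.im h
      simp at this
      linarith
    have e1 := hC ((σ : ℂ) + t * I) (by simpa using hσβ') hne1
    have e2 := hC (((1 - σ : ℝ) : ℂ) + t * I) (by
      have : β < 1 - σ := by linarith
      simpa using this) hne2
    rw [e1, e2, norm_mul, norm_mul, norm_mul, norm_mul, Complex.norm_exp, Complex.norm_exp, h2] at h4
    have h7 : 0 < ‖P (((1 - σ : ℝ) : ℂ) + t * I)‖ := norm_pos_iff.mpr h6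
    have h8 : 0 < ‖C‖ := norm_pos_iff.mpr hC0
    have h9 : Real.exp (l ((σ : ℂ) + t * I)).re * XP t
        = XR t * Real.exp (l (((1 - σ : ℝ) : ℂ) + t * I)).re := by
      have h10 : (‖C‖ * ‖P (((1 - σ : ℝ) : ℂ) + t * I)‖) ≠ 0 := (mul_pos h8 h7).ne'
      apply mul_left_cancel₀ h10
      linear_combination h4
    have h11 := congrArg Real.log h9
    rw [Real.log_mul (Real.exp_pos _).ne' h1.ne', Real.log_mul h3.ne' (Real.exp_pos _).ne',
      Real.log_exp, Real.log_exp] at h11
    simp only [hφ]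
    linarith
  -- asymptotics of the right-hand side
  have hasy : Tendsto (fun t => Real.log (XR t) - Real.log (XP t)
      - (1 - 2 * σ) * ((DR - DP) * Real.log t + (κR - κP))) atTop (𝓝 0) := by
    have := hXRl.sub hXPl
    rw [sub_zero] at this
    refine this.congr (fun t => ?_)
    ring
  have hfreqN : ∃ᶠ t in atTop, t ∈ N := by
    rw [frequently_atTop]
    intro a
    obtain ⟨t, ht1, ht2⟩ := hNd.exists_mem_open (isOpen_Ioi (a := a)) nonempty_Ioi
    exact ⟨t, ht2.le, ht1⟩
  have hD : DR - DP = 0 := by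
    by_contra hne
    set B := ∑' n, ‖d n‖ with hB
    have h12 : 0 < 1 - 2 * σ := by linarith
    have h1 : Tendsto (fun t : ℝ => |(1 - 2 * σ) * ((DR - DP) * Real.log t + (κR - κP))|) atTop atTop := by
      have h2 : Tendsto (fun t : ℝ => |(DR - DP) * Real.log t|) atTop atTop := by
        simp only [abs_mul]
        exact (tendsto_abs_atTop_atTop.comp Real.tendsto_log_atTop).const_mul_atTop (abs_pos.mpr hne)
      have h3 : Tendsto (fun t : ℝ => |(DR - DP) * Real.log t| - |κR - κP|) atTop atTop :=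
        tendsto_atTop_add_const_right _ _ h2
      have h4 := h3.const_mul_atTop h12
      refine tendsto_atTop_mono (fun t => ?_) h4
      rw [show |(1 - 2 * σ) * ((DR - DP) * Real.log t + (κR - κP))|
        = (1 - 2 * σ) * |(DR - DP) * Real.log t + (κR - κP)| by rw [abs_mul, abs_of_pos h12]]
      refine mul_le_mul_of_nonneg_left ?_ h12.le
      have := abs_sub_abs_le_abs_sub ((DR - DP) * Real.log t) (-(κR - κP))
      rw [abs_neg, sub_neg_eq_add] at this
      exact this
    have h5 : ∀ᶠ t in atTop, |Real.log (XR t) - Real.log (XP t)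
      - (1 - 2 * σ) * ((DR - DP) * Real.log t + (κR - κP))| < 1 := by
      have := hasy.abs
      rw [abs_zero] at this
      exact this.eventually (gt_mem_nhds one_pos)
    obtain ⟨t, htN, ⟨ht1, ht2⟩, ht3⟩ := (hfreqN.and_eventually
      ((hid.and h5).and (h1.eventually_gt_atTop (B + 1)))).exists
    rw [← ht1 htN] at ht2
    have h6 := hφb t
    have h7 := abs_sub_abs_le_abs_sub ((1 - 2 * σ) * ((DR - DP) * Real.log t + (κR - κP))) (φ t)
    have h8 := abs_sub_comm ((1 - 2 * σ) * ((DR - DP) * Real.log t + (κR - κP))) (φ t)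
    linarith
  set K : ℝ := (1 - 2 * σ) * (κR - κP) with hK
  have hlim : Tendsto φ atTop (𝓝 K) := by
    rw [Metric.tendsto_atTop]
    intro ε hε
    have h5 : ∀ᶠ t in atTop, |Real.log (XR t) - Real.log (XP t) - K| < ε / 2 := by
      have h6 : Tendsto (fun t => Real.log (XR t) - Real.log (XP t) - K) atTop (𝓝 0) := by
        refine hasy.congr (fun t => ?_)
        rw [hD, hK]; ring
      have := h6.abs
      rw [abs_zero] at this
      exact this.eventually (gt_mem_nhds (by linarith))
    obtain ⟨T, hT⟩ := eventually_atTop.mp (hid.and h5)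
    refine ⟨T + 1, fun t ht => ?_⟩
    have hclosed : IsClosed {t : ℝ | |φ t - K| ≤ ε / 2} :=
      isClosed_le ((hφc.sub continuous_const).abs) continuous_const
    have hsub : Ioi T ∩ N ⊆ {t : ℝ | |φ t - K| ≤ ε / 2} := by
      intro t' ht'
      have h7 := hT t' ht'.1.le
      rw [Set.mem_ofPred_eq, h7.1 ht'.2]
      exact h7.2.le
    have hmem : t ∈ closure (Ioi T ∩ N) :=
      hNd.open_subset_closure_inter isOpen_Ioi (show T < t by linarith)
    have := (closure_minimal hsub hclosed) hmem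
    rw [Set.mem_ofPred_eq] at this
    rw [Real.dist_eq]
    linarith
  have hφeq : φ = fun t => (∑' n, d n * osc n t).re := funext hφ2
  rw [hφeq] at hlim
  intro m hm
  have hm0 : m ≠ 0 := by omega
  have h1 := ap_unique hdsum (by simp [hd]) hlim m hm
  simp only [hd, hm0, if_false] at h1
  have hm1 : (1 : ℝ) < m := by exact_mod_cast (by omega : 1 < m)
  have h2 : (((m : ℝ) ^ (-σ) - (m : ℝ) ^ (-(1 - σ)) : ℝ) : ℂ) ≠ 0 := by
    have h3 : (m : ℝ) ^ (-(1 - σ)) < (m : ℝ) ^ (-σ) :=
      Real.rpow_lt_rpow_of_exponent_lt hm1 (by linarith)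
    exact_mod_cast (sub_pos.mpr h3).ne'
  have h4 : unlog e m = 0 := (mul_eq_zero.mp h1).resolve_right h2
  have h5 := logMul_unlog he1 hm0
  rw [LSeries.logMul, h4, mul_zero] at h5
  have h6 : q m - p m = 0 := by simpa [he] using h5.symm
  exact sub_eq_zero.mp h6

end Pool.Agent.SelPole
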