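import Pool.Agent.SelPole.Landau
import Pool.Agent.SelPole.Rigid

/-! The Landau step for two functions of the working class with real coefficients. -/

namespace Pool.Agent.SelPole

open Complex Filter Topology Set

theorem EulerFE.meromorphicAt {P : ℂ → ℂ} {p : ℕ → ℂ} (hP : EulerFE P p) (z : ℂ) :
    MeromorphicAt P z := by
  obtain ⟨m, g, hg, hge⟩ := hP.cont
  have h1 : MeromorphicAt (fun s => g s / (s - 1) ^ m) z := by
    have h2 : AnalyticAt ℂ g z := hg.analyticAt z
    have h3 : AnalyticAt ℂ (fun s : ℂ => (s - 1) ^ m) z := by fun_prop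
    exact h2.meromorphicAt.div h3.meromorphicAt
  refine h1.congr ?_
  have h4 : ∀ᶠ s in 𝓝[≠] z, s ≠ 1 := by
    by_cases hz : z = 1
    · rw [hz]; exact self_mem_nhdsWithin
    · exact (isOpen_ne.mem_nhds hz) |> mem_nhdsWithin_of_mem_nhds
  filter_upwards [h4] with s hs
  rw [hge s hs]
  have : (s - 1) ^ m ≠ 0 := pow_ne_zero _ (sub_ne_zero.mpr hs)
  field_simp

theorem EulerFE.order_ne_top {P : ℂ → ℂ} {p : ℕ → ℂ} (hP : EulerFE P p) (z : ℂ) :
    meromorphicOrderAt P z ≠ ⊤ := by
  intro h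
  rw [meromorphicOrderAt_eq_top_iff] at h
  obtain ⟨m, g, hg, hge⟩ := hP.cont
  have h4 : ∀ᶠ s in 𝓝[≠] z, s ≠ 1 := by
    by_cases hz : z = 1
    · rw [hz]; exact self_mem_nhdsWithin
    · exact (isOpen_ne.mem_nhds hz) |> mem_nhdsWithin_of_mem_nhds
  have hz : ∀ᶠ s in 𝓝[≠] z, g s = 0 := by
    filter_upwards [h, h4] with s h1 h2
    rw [hge s h2, h1, mul_zero]
  have hzero := (hg.differentiableOn.analyticOnNhd isOpen_univ).eqOn_zero_of_preconnected_of_frequently_eq_zero
    isPreconnected_univ (Set.mem_univ z) hz.frequently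
  have h2 := hzero (Set.mem_univ (2 : ℂ))
  simp only [Pi.zero_apply] at h2
  rw [hge 2 (by norm_num)] at h2
  have h3 := hP.ne 2 (by simp)
  norm_num at h2
  exact h3 h2

/-- local form of a function of the working class -/
theorem EulerFE.local_form {P : ℂ → ℂ} {p : ℕ → ℂ} (hP : EulerFE P p) (z : ℂ) :
    ∃ (n : ℤ) (u : ℂ → ℂ), meromorphicOrderAt P z = n ∧ AnalyticAt ℂ u z ∧ u z ≠ 0 ∧
      ∀ᶠ s in 𝓝[≠] z, P s = (s - z) ^ n * u s := by
  obtain ⟨n, hn⟩ := WithTop.ne_top_iff_exists.mp (hP.order_ne_top z)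
  obtain ⟨u, hu1, hu2, hu3⟩ := (meromorphicOrderAt_eq_int_iff (hP.meromorphicAt z)).mp hn.symm
  exact ⟨n, u, hn.symm, hu1, hu2, hu3⟩

theorem landau_local {P R : ℂ → ℂ} {p q : ℕ → ℝ} (hP : EulerFE P (fun n => (p n : ℂ)))
    (hR : EulerFE R (fun n => (q n : ℂ))) {E : Set ℕ} {x σ₁ : ℝ} (hx : x ≤ 1) (hσ₁ : σ₁ < x)
    (hE : LSeriesSummable (E.indicator (fun n => ((q n - p n : ℝ) : ℂ))) σ₁)
    (hdom : ∀ n ∉ E, p n ≤ q n)
    (hab : LSeries.abscissaOfAbsConv (fun n => ((q n - p n : ℝ) : ℂ)) ≤ x)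
    (hord : meromorphicOrderAt P x ≤ meromorphicOrderAt R x) :
    ∃ δ : ℝ, 0 < δ ∧ LSeries.abscissaOfAbsConv (fun n => ((q n - p n : ℝ) : ℂ))
      ≤ ((x - δ : ℝ) : EReal) := by
  classical
  set e : ℕ → ℂ := fun n => ((q n - p n : ℝ) : ℂ) with he
  have he' : (fun n => (q n : ℂ)) - (fun n => (p n : ℂ)) = e := by
    funext n; simp [he]
  have he1 : e 1 = 0 := by
    have h1 := hP.one
    have h2 := hR.one
    rw [← he']
    simp only [Pi.sub_apply, h1, h2, sub_zero]
  obtain ⟨C, hC0, hC⟩ := quotient hP hR hx (by rw [he']; exact hab)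
  rw [he'] at hC
  -- the two parts of the series
  set c : ℕ → ℝ := fun n => if n = 0 ∨ n ∈ E then 0 else q n - p n with hc
  have hc0 : ∀ n, 0 ≤ c n := by
    intro n
    simp only [hc]
    split_ifs with h
    · exact le_rfl
    · push Not at h
      linarith [hdom n h.2]
  set eE : ℕ → ℂ := E.indicator e with heE
  have heE1 : eE 1 = 0 := by
    simp only [heE, Set.indicator]
    split_ifs
    · exact he1
    · rfl
  have hc1 : (fun n => (c n : ℂ)) 1 = 0 := by
    have h1 : c 1 = 0 := by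
      by_cases h : (1 : ℕ) = 0 ∨ 1 ∈ E
      · simp only [hc, if_pos h]
      · simp only [hc, if_neg h]
        have h2 : ((q 1 - p 1 : ℝ) : ℂ) = 0 := he1
        exact_mod_cast h2
    simp [h1]
  have hsplit : ∀ n, n ≠ 0 → e n = ((fun n => (c n : ℂ)) + eE) n := by
    intro n hn
    simp only [Pi.add_apply, hc, heE, he]
    by_cases h : n ∈ E
    · simp [h]
    · simp [h, hn]
  have habE : LSeries.abscissaOfAbsConv eE ≤ σ₁ := by
    have := hE.abscissaOfAbsConv_le
    simpa using this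
  have hσx : ((σ₁ : ℝ) : EReal) < x := by exact_mod_cast hσ₁
  have habC : LSeries.abscissaOfAbsConv (fun n => (c n : ℂ)) ≤ x := by
    have h1 : LSeries.abscissaOfAbsConv (fun n => (c n : ℂ))
        = LSeries.abscissaOfAbsConv (e - eE) := by
      apply LSeries.abscissaOfAbsConv_congr
      intro n hn
      rw [Pi.sub_apply, hsplit n hn]
      simp
    rw [h1]
    refine (LSeries.abscissaOfAbsConv_sub_le e eE).trans ?_
    exact max_le hab (habE.trans hσx.le)
  -- local forms
  obtain ⟨nP, u, hnP, hu, hux, hPu⟩ := hP.local_form (x : ℂ)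
  obtain ⟨nR, v, hnR, hv, hvx, hRv⟩ := hR.local_form (x : ℂ)
  rw [hnP, hnR] at hord
  have hN : nP ≤ nR := by exact_mod_cast hord
  -- a common ball
  have hev : ∀ᶠ s in 𝓝[≠] (x : ℂ), (P s = (s - x) ^ nP * u s) ∧ (R s = (s - x) ^ nR * v s)
      ∧ u s ≠ 0 ∧ v s ≠ 0 ∧ s ≠ 1 := by
    have h4 : ∀ᶠ s in 𝓝[≠] (x : ℂ), s ≠ 1 := by
      by_cases hz : (x : ℂ) = 1
      · rw [hz]; exact self_mem_nhdsWithin
      · exact (isOpen_ne.mem_nhds hz) |> mem_nhdsWithin_of_mem_nhds
    filter_upwards [hPu, hRv, mem_nhdsWithin_of_mem_nhds (hu.continuousAt.eventually_ne hux),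
      mem_nhdsWithin_of_mem_nhds (hv.continuousAt.eventually_ne hvx), h4] with s h1 h2 h3 h5 h6
    exact ⟨h1, h2, h3, h5, h6⟩
  have hev2 : ∀ᶠ s : ℂ in 𝓝 (x : ℂ), (s ≠ (x : ℂ) → (P s = (s - x) ^ nP * u s) ∧ (R s = (s - x) ^ nR * v s)
      ∧ u s ≠ 0 ∧ v s ≠ 0 ∧ s ≠ 1) ∧ u s ≠ 0 ∧ v s ≠ 0 ∧ AnalyticAt ℂ u s ∧ AnalyticAt ℂ v s := by
    have h1 := eventually_nhdsWithin_iff.mp hev
    filter_upwards [h1, hu.continuousAt.eventually_ne hux, hv.continuousAt.eventually_ne hvx,
      hu.eventually_analyticAt, hv.eventually_analyticAt] with s h2 h3 h4 h5 h6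
    exact ⟨fun h => h2 h, h3, h4, h5, h6⟩
  obtain ⟨ε, hε, hball⟩ := Metric.eventually_nhds_iff_ball.mp hev2
  set l : ℂ → ℂ := LSeries (unlog e) with hl
  have habl : LSeries.abscissaOfAbsConv (unlog e) ≤ x := by
    refine LSeries.abscissaOfAbsConv_le_of_forall_lt_LSeriesSummable (fun y hy => ?_)
    apply unlog_summable he1
    apply LSeriesSummable_of_abscissaOfAbsConv_lt_re
    refine lt_of_le_of_lt hab ?_
    exact_mod_cast (by simpa using hy)
  have hld : ∀ s : ℂ, x < s.re → HasDerivAt l (-LSeries e s) s := by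
    intro s hs'
    have h1 : LSeries.abscissaOfAbsConv (unlog e) < s.re := lt_of_le_of_lt habl (by exact_mod_cast hs')
    have h2 := LSeries_hasDerivAt h1
    have h3 : LSeries (LSeries.logMul (unlog e)) s = LSeries e s :=
      LSeries_congr (fun hn => logMul_unlog he1 hn) s
    rw [h3] at h2
    exact h2
  -- key relation in the right half of the ball
  have hrel : ∀ s ∈ Metric.ball (x : ℂ) ε, x < s.re →
      (s - x) ^ (nR - nP) * v s = C * exp (l s) * u s := by
    intro s hs hsx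
    have hne : s ≠ x := by
      intro h; rw [h] at hsx; simp at hsx
    obtain ⟨h1, h2, h3, h4, h5⟩ := (hball s hs).1 hne
    have h6 := hC s hsx h5
    rw [h1, h2] at h6
    have h7 : (s - x) ≠ 0 := sub_ne_zero.mpr hne
    rw [zpow_sub₀ h7]
    have h8 : (s - x) ^ nP ≠ 0 := zpow_ne_zero _ h7
    field_simp
    linear_combination h6
  -- the exponent is zero
  have hN0 : nR - nP = 0 := by
    by_contra hne
    have hpos : 0 < nR - nP := by omega
    -- lower bound of l on the real axis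
    have hlE : ContinuousAt (fun σ : ℝ => LSeries (unlog eE) (σ : ℂ)) x := by
      have h1 : LSeries.abscissaOfAbsConv (unlog eE) < ((x : ℝ) : ℂ).re := by
        rw [Complex.ofReal_re]
        refine lt_of_le_of_lt ?_ hσx
        refine LSeries.abscissaOfAbsConv_le_of_forall_lt_LSeriesSummable (x := σ₁) (fun y hy => ?_)
        apply unlog_summable heE1
        · apply LSeriesSummable_of_abscissaOfAbsConv_lt_re
          refine lt_of_le_of_lt habE ?_
          exact_mod_cast (by simpa using hy)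
      exact (LSeries_hasDerivAt h1).continuousAt.comp Complex.continuous_ofReal.continuousAt
    have hsplitl : ∀ σ : ℝ, x < σ → (l (σ : ℂ)).re ≥ (LSeries (unlog eE) (σ : ℂ)).re := by
      intro σ hσ
      have hs1 : LSeriesSummable (unlog (fun n => (c n : ℂ))) (σ : ℂ) := by
        apply unlog_summable hc1
        · apply LSeriesSummable_of_abscissaOfAbsConv_lt_re
          refine lt_of_le_of_lt habC ?_
          exact_mod_cast (by simpa using hσ)
      have hs2 : LSeriesSummable (unlog eE) (σ : ℂ) := by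
        apply unlog_summable heE1
        · apply LSeriesSummable_of_abscissaOfAbsConv_lt_re
          refine lt_of_le_of_lt habE ?_
          exact_mod_cast (by simpa using hσ₁.trans hσ)
      have h1 : l (σ : ℂ) = LSeries (unlog (fun n => (c n : ℂ))) (σ : ℂ)
          + LSeries (unlog eE) (σ : ℂ) := by
        rw [← LSeries_add hs1 hs2, hl]
        apply LSeries_congr
        intro n hn
        simp only [Pi.add_apply, unlog]
        rw [hsplit n hn, Pi.add_apply, add_div]
      rw [h1, Complex.add_re]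
      have h2 : 0 ≤ (LSeries (unlog (fun n => (c n : ℂ))) (σ : ℂ)).re := by
        rw [LSeries, Complex.re_tsum hs1]
        refine tsum_nonneg (fun n => ?_)
        by_cases hn : n = 0
        · simp [hn]
        · rw [LSeries.term_of_ne_zero hn, unlog]
          have hn0 : (0 : ℝ) < n := by exact_mod_cast Nat.pos_of_ne_zero hn
          rw [show ((n : ℂ) ^ (σ : ℂ)) = (((n : ℝ) ^ σ : ℝ) : ℂ) by
            rw [Complex.ofReal_cpow hn0.le]; simp]
          rw [← Complex.ofReal_div, ← Complex.ofReal_div, Complex.ofReal_re]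
          exact div_nonneg (div_nonneg (hc0 n) (Real.log_natCast_nonneg n)) (by positivity)
      linarith
    -- the relation forces l → -∞
    have hlim0 : Tendsto (fun σ : ℝ => ‖(((σ : ℂ) - x) ^ (nR - nP) * v σ) / (C * u σ)‖) (𝓝[>] x)
        (𝓝 0) := by
      obtain ⟨k, hk⟩ : ∃ k : ℕ, nR - nP = (k : ℤ) := ⟨(nR - nP).toNat, by omega⟩
      have hk0 : k ≠ 0 := by omega
      have hcv : ContinuousAt (fun σ : ℝ => v (σ : ℂ)) x :=
        hv.continuousAt.comp Complex.continuous_ofReal.continuousAt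
      have hcu : ContinuousAt (fun σ : ℝ => u (σ : ℂ)) x :=
        hu.continuousAt.comp Complex.continuous_ofReal.continuousAt
      have hcont : ContinuousAt (fun σ : ℝ => ‖(((σ : ℂ) - x) ^ (nR - nP) * v σ) / (C * u σ)‖) x := by
        rw [hk]
        simp only [zpow_natCast]
        apply ContinuousAt.norm
        refine ContinuousAt.div ?_ (continuousAt_const.mul hcu) (mul_ne_zero hC0 hux)
        exact ContinuousAt.mul (by fun_prop) hcv
      have h1 := hcont.tendsto.mono_left (nhdsWithin_le_nhds (s := Ioi x))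
      have h2 : ‖(((x : ℂ) - x) ^ (nR - nP) * v x) / (C * u x)‖ = 0 := by
        rw [hk]; simp [hk0]
      rw [h2] at h1
      exact h1
    have hlim1 : ∀ᶠ σ : ℝ in 𝓝[>] x, Real.exp ((LSeries (unlog eE) (x : ℂ)).re - 1)
        ≤ ‖(((σ : ℂ) - x) ^ (nR - nP) * v σ) / (C * u σ)‖ := by
      have h1 : ∀ᶠ σ : ℝ in 𝓝 x, (LSeries (unlog eE) (x : ℂ)).re - 1 < (LSeries (unlog eE) (σ : ℂ)).re := by
        have h2 : ContinuousAt (fun σ : ℝ => (LSeries (unlog eE) (σ : ℂ)).re) x :=
          Complex.continuous_re.continuousAt.comp hlE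
        exact h2.tendsto.eventually (lt_mem_nhds (by linarith))
      have h3 : ∀ᶠ σ : ℝ in 𝓝 x, (σ : ℂ) ∈ Metric.ball (x : ℂ) ε :=
        Complex.continuous_ofReal.continuousAt.eventually (Metric.ball_mem_nhds _ hε)
      filter_upwards [mem_nhdsWithin_of_mem_nhds h1, mem_nhdsWithin_of_mem_nhds h3,
        self_mem_nhdsWithin] with σ h4 h5 h6
      have h7 : x < σ := h6
      have h8 := hrel (σ : ℂ) h5 (by simpa using h7)
      have h9 : u (σ : ℂ) ≠ 0 := (hball _ h5).2.1
      rw [h8, show C * exp (l (σ : ℂ)) * u σ / (C * u σ) = exp (l (σ : ℂ)) by field_simp,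
        Complex.norm_exp]
      apply Real.exp_le_exp.mpr
      have h10 := hsplitl σ h7
      linarith
    have h11 : (0 : ℝ) < Real.exp ((LSeries (unlog eE) (x : ℂ)).re - 1) := Real.exp_pos _
    have h12 := hlim0.eventually (gt_mem_nhds h11)
    obtain ⟨σ, h13, h14⟩ := (hlim1.and h12).exists
    linarith
  rw [hN0] at hrel
  simp only [zpow_zero, one_mul] at hrel
  -- the analytic continuation of the nonnegative part
  set h : ℂ → ℂ := fun s => -(deriv v s / v s - deriv u s / u s) - LSeries eE s with hh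
  obtain ⟨ε', hε', hε'1, hε'2⟩ : ∃ ε' : ℝ, 0 < ε' ∧ ε' ≤ ε ∧ ε' ≤ x - σ₁ :=
    ⟨min ε (x - σ₁), lt_min hε (by linarith), min_le_left _ _, min_le_right _ _⟩
  have hre : ∀ s ∈ Metric.ball (x : ℂ) ε', σ₁ < s.re := by
    intro s hs
    rw [Metric.mem_ball, Complex.dist_eq] at hs
    have h1 := Complex.abs_re_le_norm (s - x)
    rw [Complex.sub_re, Complex.ofReal_re] at h1
    have h2 := (abs_le.mp (h1.trans hs.le)).1
    have h3 : |s.re - x| < ε' := lt_of_le_of_lt h1 hs
    have h4 := (abs_lt.mp h3).1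
    linarith
  have hhd : DifferentiableOn ℂ h (Metric.ball (x : ℂ) ε') := by
    intro s hs
    have hs' := Metric.ball_subset_ball hε'1 hs
    obtain ⟨_, h2, h3, h4, h5⟩ := hball s hs'
    have h6 : DifferentiableAt ℂ (LSeries eE) s := by
      apply DifferentiableAt.congr_of_eventuallyEq _ (EventuallyEq.refl _ _)
      exact (LSeries_hasDerivAt (lt_of_le_of_lt habE (by exact_mod_cast hre s hs))).differentiableAt
    have h7 : DifferentiableAt ℂ (deriv v) s := h5.deriv.differentiableAt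
    have h8 : DifferentiableAt ℂ (deriv u) s := h4.deriv.differentiableAt
    have h9 := h5.differentiableAt
    have h10 := h4.differentiableAt
    exact (((h7.div h9 h3).sub (h8.div h10 h2)).neg.sub h6).differentiableWithinAt
  have hheq : ∀ s ∈ Metric.ball (x : ℂ) ε', x < s.re → h s = LSeries (fun n => (c n : ℂ)) s := by
    intro s hs hsx
    have hs' := Metric.ball_subset_ball hε'1 hs
    obtain ⟨_, h2, h3, h4, h5⟩ := hball s hs'
    -- differentiate v = C exp(l) u
    have h6 : v =ᶠ[𝓝 s] fun z => C * exp (l z) * u z := by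
      filter_upwards [Metric.isOpen_ball.mem_nhds hs',
        (isOpen_lt continuous_const continuous_re).mem_nhds hsx] with z hz1 hz2
      exact hrel z hz1 hz2
    have h7 : HasDerivAt (fun z => C * exp (l z) * u z)
        (C * (exp (l s) * (-LSeries e s)) * u s + C * exp (l s) * deriv u s) s :=
      (((hld s hsx).cexp).const_mul C).mul h4.differentiableAt.hasDerivAt
    have h8 : deriv v s = C * (exp (l s) * (-LSeries e s)) * u s + C * exp (l s) * deriv u s := by
      rw [h6.deriv_eq]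
      exact h7.deriv
    have h9 : v s = C * exp (l s) * u s := hrel s hs' hsx
    have h10 : LSeries e s = LSeries (fun n => (c n : ℂ)) s + LSeries eE s := by
      rw [← LSeries_add]
      · exact LSeries_congr (fun hn => hsplit _ hn) s
      · exact LSeriesSummable_of_abscissaOfAbsConv_lt_re (lt_of_le_of_lt habC (by exact_mod_cast hsx))
      · exact LSeriesSummable_of_abscissaOfAbsConv_lt_re
          (lt_of_le_of_lt habE (by exact_mod_cast hσ₁.trans hsx))
    have h11 : deriv v s / v s - deriv u s / u s = -LSeries e s := by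
      rw [h8, h9]
      have := Complex.exp_ne_zero (l s)
      field_simp
      ring
    simp only [hh]
    rw [h11, h10]
    ring
  obtain ⟨δ, hδ, hsum⟩ := landau hc0 hε' habC hhd hheq
  refine ⟨min δ (x - σ₁), lt_min hδ (by linarith), ?_⟩
  have h1 : LSeries.abscissaOfAbsConv e = LSeries.abscissaOfAbsConv ((fun n => (c n : ℂ)) + eE) :=
    LSeries.abscissaOfAbsConv_congr (fun hn => hsplit _ hn)
  rw [h1]
  refine (LSeries.abscissaOfAbsConv_add_le _ _).trans (max_le ?_ ?_)
  · have h2 := hsum.abscissaOfAbsConv_le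
    rw [Complex.ofReal_re] at h2
    refine h2.trans ?_
    exact_mod_cast sub_le_sub_left (min_le_left _ _) x
  · refine habE.trans ?_
    have := min_le_right δ (x - σ₁)
    exact_mod_cast (by linarith : σ₁ ≤ x - min δ (x - σ₁))

/-- global form -/
theorem landau_global {P R : ℂ → ℂ} {p q : ℕ → ℝ} (hP : EulerFE P (fun n => (p n : ℂ)))
    (hR : EulerFE R (fun n => (q n : ℂ))) {E : Set ℕ} {β : ℝ}
    (hE : ∀ σ : ℝ, β < σ → LSeriesSummable (E.indicator (fun n => ((q n - p n : ℝ) : ℂ))) σ)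
    (hdom : ∀ n ∉ E, p n ≤ q n)
    (hord : ∀ x : ℝ, β < x → x ≤ 1 → meromorphicOrderAt P x ≤ meromorphicOrderAt R x) :
    LSeries.abscissaOfAbsConv (fun n => ((q n - p n : ℝ) : ℂ)) ≤ β := by
  by_contra hcon
  push Not at hcon
  set a := LSeries.abscissaOfAbsConv (fun n => ((q n - p n : ℝ) : ℂ)) with ha
  have ha1 : a ≤ 1 := by
    refine LSeries.abscissaOfAbsConv_le_of_forall_lt_LSeriesSummable (x := 1) (fun y hy => ?_)
    have h1 := (hR.summ (y : ℂ) (by simpa using hy)).sub (hP.summ (y : ℂ) (by simpa using hy))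
    have h2 : (fun n => (q n : ℂ)) - (fun n => (p n : ℂ)) = fun n => ((q n - p n : ℝ) : ℂ) := by
      funext n; simp
    rwa [h2] at h1
  have hatop : a ≠ ⊤ := by
    intro h
    rw [h] at ha1
    exact absurd ha1 (not_le.mpr (by exact_mod_cast EReal.coe_lt_top 1))
  have habot : a ≠ ⊥ := ne_bot_of_gt hcon
  obtain ⟨x, hx⟩ : ∃ x : ℝ, a = (x : EReal) := ⟨a.toReal, (EReal.coe_toReal hatop habot).symm⟩
  rw [hx] at hcon ha1
  have hx1 : x ≤ 1 := by exact_mod_cast ha1
  have hxβ : β < x := by exact_mod_cast hcon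
  obtain ⟨σ₁, h1, h2⟩ := exists_between hxβ
  obtain ⟨δ, hδ, hle⟩ := landau_local hP hR hx1 h2 (hE σ₁ h1) hdom (by rw [← ha, hx]) (hord x hxβ hx1)
  rw [← ha, hx] at hle
  have : x ≤ x - δ := by exact_mod_cast hle
  linarith

end Pool.Agent.SelPole
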