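import Pool.Agent.SelPole.Defs
import Pool.Agent.SelPole.GammaRatio
import Pool.Agent.SelPole.Step

/-! The working class contains the Selberg class, the conjugates of its members and zeta, and is
closed under products. -/

namespace Pool.Agent.SelPole

open Complex Filter Topology Set
open scoped ComplexConjugate

/-- The working class is closed under products. -/
theorem EulerFE.mul {F G : ℂ → ℂ} {c d : ℕ → ℂ} (hF : EulerFE F c) (hG : EulerFE G d) :
    EulerFE (fun s => F s * G s) (c + d) where
  cont := by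
    obtain ⟨m, f, hf, hfe⟩ := hF.cont
    obtain ⟨n, g, hg, hge⟩ := hG.cont
    refine ⟨m + n, fun s => f s * g s, hf.mul hg, fun s hs => ?_⟩
    simp only [hfe s hs, hge s hs]
    ring
  ne := fun s hs => mul_ne_zero (hF.ne s hs) (hG.ne s hs)
  one := by simp [hF.one, hG.one]
  summ := fun s hs => (hF.summ s hs).add (hG.summ s hs)
  ld := by
    intro s hs
    have h1 := (hF.ld s hs).mul (hG.ld s hs)
    refine h1.congr_deriv ?_
    rw [LSeries_add (hF.summ s hs) (hG.summ s hs)]
    ring
  fe := by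
    obtain ⟨D, κ, h1⟩ := hF.fe
    obtain ⟨D', κ', h2⟩ := hG.fe
    refine ⟨D + D', κ + κ', fun σ h0 h12 => ?_⟩
    obtain ⟨X, hX0, hX, hXl⟩ := h1 σ h0 h12
    obtain ⟨Y, hY0, hY, hYl⟩ := h2 σ h0 h12
    refine ⟨fun t => X t * Y t, ?_, ?_, ?_⟩
    · filter_upwards [hX0, hY0] with t a b using mul_pos a b
    · filter_upwards [hX, hY] with t a b
      rw [norm_mul, norm_mul, a, b]; ring
    · have h3 := hXl.add hYl
      rw [add_zero] at h3
      refine h3.congr' ?_
      filter_upwards [hX0, hY0] with t a b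
      rw [Real.log_mul a.ne' b.ne']
      ring

theorem eulerFE_const_one : EulerFE (fun _ => 1) 0 where
  cont := ⟨0, fun _ => 1, differentiable_const _, fun s _ => by simp⟩
  ne := fun s _ => one_ne_zero
  one := rfl
  summ := fun s _ => LSeriesSummable_zero
  ld := by
    intro s _
    have : HasDerivAt (fun _ : ℂ => (1 : ℂ)) 0 s := hasDerivAt_const s 1
    refine this.congr_deriv ?_
    rw [LSeries_zero]; simp
  fe := by
    refine ⟨0, 0, fun σ _ _ => ⟨fun _ => 1, ?_, ?_, ?_⟩⟩
    · exact Eventually.of_forall (fun _ => one_pos)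
    · exact Eventually.of_forall (fun _ => by simp)
    · simp

theorem EulerFE.pow {F : ℂ → ℂ} {c : ℕ → ℂ} (hF : EulerFE F c) (r : ℕ) :
    EulerFE (fun s => F s ^ r) (fun n => (r : ℂ) * c n) := by
  induction r with
  | zero =>
    have h1 : (fun s => F s ^ 0) = fun _ => (1 : ℂ) := by funext s; simp
    have h2 : (fun n => ((0 : ℕ) : ℂ) * c n) = 0 := by funext n; simp
    rw [h1, h2]
    exact eulerFE_const_one
  | succ r ih =>
    have h1 : (fun s => F s ^ (r + 1)) = fun s => F s ^ r * F s := by funext s; rw [pow_succ]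
    have h2 : (fun n => ((r + 1 : ℕ) : ℂ) * c n) = (fun n => (r : ℂ) * c n) + c := by
      funext n; simp only [Pi.add_apply]; push_cast; ring
    rw [h1, h2]
    exact ih.mul hF

theorem EulerFE.congr_coeff {F : ℂ → ℂ} {c d : ℕ → ℂ} (hF : EulerFE F c) (h : ∀ n, c n = d n) :
    EulerFE F d := by
  have : c = d := funext h
  rwa [← this]

/-- The asymptotic form of a functional equation with Gamma factors. -/
theorem fe_of_norm {F : ℂ → ℂ} {Q : ℝ} (hQ : 0 < Q) {k : ℕ} {lam : Fin k → ℝ} {mu : Fin k → ℂ}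
    (hlam : ∀ j, 0 < lam j) (hmu : ∀ j, 0 ≤ (mu j).re)
    (h : ∀ σ t : ℝ, 0 < σ → σ < 1 → Q ^ σ * (∏ j, ‖Gamma (lam j * ((σ : ℂ) + t * I) + mu j)‖)
      * ‖F ((σ : ℂ) + t * I)‖ = Q ^ (1 - σ) *
      (∏ j, ‖Gamma (lam j * (((1 - σ : ℝ) : ℂ) + t * I) + mu j)‖)
      * ‖F (((1 - σ : ℝ) : ℂ) + t * I)‖) :
    ∃ D κ : ℝ, ∀ σ : ℝ, 0 < σ → σ < 1 / 2 → ∃ X : ℝ → ℝ, (∀ᶠ t in atTop, 0 < X t) ∧
    (∀ᶠ t : ℝ in atTop, ‖F ((σ : ℂ) + t * I)‖ = X t * ‖F (((1 - σ : ℝ) : ℂ) + t * I)‖) ∧
    Tendsto (fun t => Real.log (X t) - (1 - 2 * σ) * (D * Real.log t + κ)) atTop (𝓝 0) := by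
  refine ⟨∑ j, lam j, Real.log Q + ∑ j, lam j * Real.log (lam j), fun σ h0 h12 => ?_⟩
  set A : Fin k → ℝ → ℝ := fun j t => ‖Gamma (lam j * ((σ : ℂ) + t * I) + mu j)‖ with hA
  set B : Fin k → ℝ → ℝ := fun j t => ‖Gamma (lam j * (((1 - σ : ℝ) : ℂ) + t * I) + mu j)‖ with hB
  have hA0 : ∀ j t, 0 < A j t := by
    intro j t
    apply norm_pos_iff.mpr
    apply Complex.Gamma_ne_zero_of_re_pos
    have h1 := hlam j
    have h2 := hmu j
    simp
    nlinarith [mul_pos h1 h0]
  have hB0 : ∀ j t, 0 < B j t := by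
    intro j t
    apply norm_pos_iff.mpr
    apply Complex.Gamma_ne_zero_of_re_pos
    have h1 := hlam j
    have h2 := hmu j
    have h3 : 0 < 1 - σ := by linarith
    simp
    nlinarith [mul_pos h1 h3]
  refine ⟨fun t => Q ^ (1 - 2 * σ) * ∏ j, (B j t / A j t), ?_, ?_, ?_⟩
  · refine Eventually.of_forall (fun t => ?_)
    exact mul_pos (Real.rpow_pos_of_pos hQ _) (Finset.prod_pos (fun j _ => div_pos (hB0 j t) (hA0 j t)))
  · refine Eventually.of_forall (fun t => ?_)
    have h1 := h σ t h0 (by linarith)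
    have h2 : (0 : ℝ) < Q ^ σ := Real.rpow_pos_of_pos hQ _
    have h3 : 0 < ∏ j, A j t := Finset.prod_pos (fun j _ => hA0 j t)
    have h4 : Q ^ (1 - σ) = Q ^ (1 - 2 * σ) * Q ^ σ := by
      rw [← Real.rpow_add hQ]; congr 1; ring
    simp only [Finset.prod_div_distrib]
    rw [h4] at h1
    apply mul_left_cancel₀ (mul_pos h2 h3).ne'
    change Q ^ σ * (∏ j, A j t) * ‖F ((σ : ℂ) + t * I)‖ = Q ^ (1 - 2 * σ) * Q ^ σ *
      (∏ j, B j t) * ‖F (((1 - σ : ℝ) : ℂ) + t * I)‖ at h1
    rw [h1]
    field_simp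
  · -- logarithm
    have hlog : ∀ t, Real.log (Q ^ (1 - 2 * σ) * ∏ j, (B j t / A j t))
        = (1 - 2 * σ) * Real.log Q + ∑ j, (Real.log (B j t) - Real.log (A j t)) := by
      intro t
      rw [Real.log_mul (Real.rpow_pos_of_pos hQ _).ne'
        (Finset.prod_pos (fun j _ => div_pos (hB0 j t) (hA0 j t))).ne', Real.log_rpow hQ,
        Real.log_prod (fun j _ => (div_pos (hB0 j t) (hA0 j t)).ne')]
      congr 1
      refine Finset.sum_congr rfl (fun j _ => ?_)
      rw [Real.log_div (hB0 j t).ne' (hA0 j t).ne']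
    have hj : ∀ j, Tendsto (fun t => (Real.log (B j t) - Real.log (A j t))
        - (1 - 2 * σ) * (lam j * Real.log t + lam j * Real.log (lam j))) atTop (𝓝 0) := by
      intro j
      have hl := hlam j
      have hx : 0 < lam j * σ + (mu j).re := by
        have := mul_pos hl h0
        linarith [hmu j]
      have ha : 0 ≤ lam j * (1 - 2 * σ) := mul_nonneg hl.le (by linarith)
      have h1 := gamma_ratio hx ha
      have hy : Tendsto (fun t : ℝ => lam j * t + (mu j).im) atTop atTop :=
        tendsto_atTop_add_const_right _ _ (tendsto_id.const_mul_atTop hl)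
      have h2 := h1.comp hy
      have h3 : Tendsto (fun t : ℝ => Real.log (lam j * t + (mu j).im) - Real.log t
          - Real.log (lam j)) atTop (𝓝 0) := by
        have h4 : Tendsto (fun t : ℝ => lam j + (mu j).im / t) atTop (𝓝 (lam j + 0)) :=
          tendsto_const_nhds.add (tendsto_const_nhds.div_atTop tendsto_id)
        rw [add_zero] at h4
        have h5 := (h4.log hl.ne').sub_const (Real.log (lam j))
        rw [sub_self] at h5
        refine h5.congr' ?_
        filter_upwards [eventually_gt_atTop 0, hy.eventually_gt_atTop 0] with t ht ht2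
        have e : lam j + (mu j).im / t = (lam j * t + (mu j).im) / t := by field_simp
        rw [e, Real.log_div ht2.ne' ht.ne']
      have h6 := h2.add (h3.const_mul (lam j * (1 - 2 * σ)))
      rw [mul_zero, add_zero] at h6
      refine h6.congr (fun t => ?_)
      simp only [Function.comp_apply, hA, hB]
      have e1 : ((lam j * σ + (mu j).re : ℝ) : ℂ) + ((lam j * (1 - 2 * σ) : ℝ) : ℂ)
          + ((lam j * t + (mu j).im : ℝ) : ℂ) * I
          = (lam j : ℂ) * (((1 - σ : ℝ) : ℂ) + t * I) + mu j := by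
        apply Complex.ext
        · simp; ring
        · simp
      have e2 : ((lam j * σ + (mu j).re : ℝ) : ℂ)
          + ((lam j * t + (mu j).im : ℝ) : ℂ) * I
          = (lam j : ℂ) * ((σ : ℂ) + t * I) + mu j := by
        apply Complex.ext
        · simp
        · simp
      rw [e1, e2]
      ring
    have hsum := tendsto_finsetSum Finset.univ (fun j _ => hj j)
    simp only [Finset.sum_const_zero] at hsum
    refine hsum.congr (fun t => ?_)
    rw [hlog, Finset.sum_sub_distrib, ← Finset.mul_sum, Finset.sum_add_distrib, ← Finset.sum_mul]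
    ring

/-- The functional equation in absolute values. -/
theorem norm_fe {F : ℂ → ℂ} (hF : HasFunctionalEquation F) :
    ∃ (Q : ℝ) (k : ℕ) (lam : Fin k → ℝ) (mu : Fin k → ℂ), 0 < Q ∧ (∀ j, 0 < lam j) ∧
      (∀ j, 0 ≤ (mu j).re) ∧
      ∀ σ t : ℝ, 0 < σ → σ < 1 → Q ^ σ * (∏ j, ‖Gamma (lam j * ((σ : ℂ) + t * I) + mu j)‖)
      * ‖F ((σ : ℂ) + t * I)‖ = Q ^ (1 - σ) *
      (∏ j, ‖Gamma (lam j * (((1 - σ : ℝ) : ℂ) + t * I) + mu j)‖)
      * ‖F (((1 - σ : ℝ) : ℂ) + t * I)‖ := by
  obtain ⟨Q, k, lam, mu, w, hQ, hlam, hmu, hw, h⟩ := hF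
  refine ⟨Q, k, lam, mu, hQ, hlam, hmu, fun σ t h0 h1 => ?_⟩
  have h2 := h ((σ : ℂ) + t * I) (by simpa using h0) (by simpa using h1)
  have e1 : 1 - conj ((σ : ℂ) + t * I) = ((1 - σ : ℝ) : ℂ) + t * I := by
    apply Complex.ext <;> simp
  rw [e1] at h2
  have h3 := congrArg norm h2
  rw [norm_mul, norm_mul, norm_prod, norm_mul, Complex.norm_conj, norm_mul, norm_mul, norm_prod, hw,
    one_mul, Complex.norm_cpow_eq_rpow_re_of_pos hQ, Complex.norm_cpow_eq_rpow_re_of_pos hQ] at h3
  simpa using h3

theorem IsSelberg.isEulerProduct {F : ℂ → ℂ} {a b : ℕ → ℂ} (hF : IsSelberg F a b) :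
    IsEulerProduct F b where
  log_summable := hF.log_summable
  log_series := hF.log_series
  b_one := hF.b_supp 1 (not_isPrimePow_one)
  continuation := by
    obtain ⟨m, g, h1, _, h2⟩ := hF.continuation
    exact ⟨m, g, h1, h2⟩
  functional := hF.functional

/-- the coefficients `b(n) log n` of `-F'/F` -/
noncomputable def ldc (b : ℕ → ℂ) (n : ℕ) : ℂ := (Real.log n : ℂ) * b n

theorem ldc_eq (b : ℕ → ℂ) : ldc b = LSeries.logMul b := by
  funext n
  simp only [ldc, LSeries.logMul]
  rw [← Complex.natCast_log]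

theorem abs_le_one {b : ℕ → ℂ} (h : ∀ s : ℂ, 1 < s.re → LSeriesSummable b s) :
    LSeries.abscissaOfAbsConv b ≤ (1 : ℝ) := by
  refine LSeries.abscissaOfAbsConv_le_of_forall_lt_LSeriesSummable (fun y hy => ?_)
  exact h y (by simpa using hy)

theorem IsEulerProduct.toEulerFE {F : ℂ → ℂ} {b : ℕ → ℂ} (hF : IsEulerProduct F b) :
    EulerFE F (ldc b) where
  cont := hF.continuation
  ne := fun s hs => by rw [hF.log_series s hs]; exact Complex.exp_ne_zero _
  one := by simp [ldc]
  summ := by
    intro s hs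
    rw [ldc_eq]
    exact LSeriesSummable_logMul_of_lt_re (lt_of_le_of_lt (abs_le_one hF.log_summable)
      (by exact_mod_cast hs))
  ld := by
    intro s hs
    have hab := abs_le_one hF.log_summable
    have h1 : HasDerivAt (fun z => exp (LSeries b z)) (exp (LSeries b s) * (-LSeries (LSeries.logMul b) s)) s :=
      (LSeries_hasDerivAt (lt_of_le_of_lt hab (by exact_mod_cast hs))).cexp
    have h2 : F =ᶠ[𝓝 s] fun z => exp (LSeries b z) := by
      filter_upwards [(isOpen_lt continuous_const continuous_re).mem_nhds hs] with z hz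
      exact hF.log_series z hz
    refine (h1.congr_of_eventuallyEq h2).congr_deriv ?_
    rw [ldc_eq, hF.log_series s hs]
    ring
  fe := by
    obtain ⟨Q, k, lam, mu, hQ, hlam, hmu, h⟩ := norm_fe hF.functional
    exact fe_of_norm hQ hlam hmu h

/-- The conjugate function. -/
theorem IsEulerProduct.toEulerFE_conj {F : ℂ → ℂ} {b : ℕ → ℂ} (hF : IsEulerProduct F b) :
    EulerFE (fun s => conj (F (conj s))) (fun n => conj (ldc b n)) where
  cont := by
    obtain ⟨m, g, hg, hge⟩ := hF.continuation
    refine ⟨m, fun s => conj (g (conj s)), fun s => ?_, fun s hs => ?_⟩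
    · have h1 : DifferentiableAt ℂ (conj ∘ g ∘ conj) (conj (conj s)) := (hg (conj s)).conj_conj
      rw [Complex.conj_conj] at h1
      exact h1
    · have h2 : conj s ≠ 1 := by
        intro h
        apply hs
        have := congrArg conj h
        simpa using this
      simp only [hge _ h2, map_mul, map_pow, map_sub, Complex.conj_conj, map_one]
  ne := by
    intro s hs h
    have h1 := hF.toEulerFE.ne (conj s) (by simpa using hs)
    apply h1
    simpa using h
  one := by simp [ldc]
  summ := by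
    intro s hs
    have h1 := hF.toEulerFE.summ s hs
    have h2 : Summable (fun n => ‖LSeries.term (ldc b) s n‖) := h1.norm
    have h3 : Summable (fun n => ‖LSeries.term (fun n => conj (ldc b n)) s n‖) := by
      refine h2.congr (fun n => ?_)
      rw [LSeries.norm_term_eq, LSeries.norm_term_eq]
      by_cases hn : n = 0
      · simp [hn]
      · simp only [hn, if_false, Complex.norm_conj]
    exact h3.of_norm
  ld := by
    intro s hs
    have h0 : 1 < (conj s).re := by simpa using hs
    have h1 : HasDerivAt (conj ∘ F ∘ conj) (conj (-LSeries (ldc b) (conj s) * F (conj s)))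
        (conj (conj s)) := (hF.toEulerFE.ld (conj s) h0).conj_conj
    rw [Complex.conj_conj] at h1
    have h2 : conj (LSeries (ldc b) (conj s)) = LSeries (fun n => conj (ldc b n)) s := by
      rw [LSeries, LSeries, Complex.conj_tsum]
      refine tsum_congr (fun n => ?_)
      by_cases hn : n = 0
      · simp [hn]
      · rw [LSeries.term_of_ne_zero hn, LSeries.term_of_ne_zero hn, map_div₀]
        congr 1
        have h3 : ((n : ℂ)).arg ≠ Real.pi := by
          rw [show ((n : ℂ)) = ((n : ℝ) : ℂ) by simp, Complex.arg_ofReal_of_nonneg (Nat.cast_nonneg n)]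
          exact Real.pi_pos.ne
        rw [Complex.cpow_conj _ _ h3]
        simp
    refine h1.congr_deriv ?_
    rw [map_mul, map_neg, h2]
  fe := by
    obtain ⟨Q, k, lam, mu, hQ, hlam, hmu, h⟩ := norm_fe hF.functional
    refine fe_of_norm (F := fun s => conj (F (conj s))) (mu := fun j => conj (mu j)) hQ hlam
      (fun j => by simpa using hmu j) ?_
    intro σ t h0 h1
    have h2 := h σ (-t) h0 h1
    have key : ∀ x : ℝ, ∀ j, ‖Gamma (lam j * ((x : ℂ) + t * I) + conj (mu j))‖
        = ‖Gamma (lam j * ((x : ℂ) + (-t : ℝ) * I) + mu j)‖ := by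
      intro x j
      rw [← Complex.norm_conj (Gamma (lam j * ((x : ℂ) + (-t : ℝ) * I) + mu j)), ← Complex.Gamma_conj]
      congr 2
      apply Complex.ext <;> simp
    have key2 : ∀ x : ℝ, ‖conj (F (conj ((x : ℂ) + t * I)))‖ = ‖F ((x : ℂ) + (-t : ℝ) * I)‖ := by
      intro x
      rw [Complex.norm_conj]
      congr 2
      apply Complex.ext <;> simp
    simp only [key, key2]
    exact h2

theorem zeta_toEulerFE : EulerFE riemannZeta (fun n => (ArithmeticFunction.vonMangoldt n : ℂ)) where
  cont := by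
    refine ⟨1, Function.update (fun s => (s - 1) * riemannZeta s) 1 1, ?_, ?_⟩
    · have hd : ∀ z : ℂ, z ≠ 1 → DifferentiableAt ℂ
          (Function.update (fun s => (s - 1) * riemannZeta s) 1 1) z := by
        intro z hz
        have h1 : DifferentiableAt ℂ (fun s => (s - 1) * riemannZeta s) z :=
          (differentiableAt_id.sub_const 1).mul (differentiableAt_riemannZeta hz)
        refine h1.congr_of_eventuallyEq ?_
        filter_upwards [isOpen_ne.mem_nhds hz] with w hw
        exact Function.update_of_ne hw _ _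
      intro s
      by_cases hs : s = 1
      · rw [hs]
        refine (Complex.analyticAt_of_differentiable_on_punctured_nhds_of_continuousAt ?_ ?_).differentiableAt
        · filter_upwards [self_mem_nhdsWithin] with z hz using hd z hz
        · exact continuousAt_update_same.mpr riemannZeta_residue_one
      · exact hd s hs
    · intro s hs
      rw [Function.update_of_ne hs]
      simp
  ne := fun s hs => riemannZeta_ne_zero_of_one_lt_re hs
  one := by simp
  summ := fun s hs => ArithmeticFunction.LSeriesSummable_vonMangoldt hs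
  ld := by
    intro s hs
    have hs1 : s ≠ 1 := by intro h; rw [h] at hs; simp at hs
    have h1 := (differentiableAt_riemannZeta hs1).hasDerivAt
    refine h1.congr_deriv ?_
    rw [ArithmeticFunction.LSeries_vonMangoldt_eq_deriv_riemannZeta_div hs]
    have := riemannZeta_ne_zero_of_one_lt_re hs
    field_simp
  fe := by
    refine fe_of_norm (k := 1) (Q := Real.pi ^ (-(1 / 2) : ℝ)) (lam := fun _ => 1 / 2)
      (mu := fun _ => 0) (Real.rpow_pos_of_pos Real.pi_pos _) (fun _ => by norm_num)
      (fun _ => by simp) ?_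
    intro σ t h0 h1
    have key : ∀ x t : ℝ, 0 < x → (Real.pi ^ (-(1 / 2) : ℝ)) ^ x *
        (∏ _j : Fin 1, ‖Gamma (((1 / 2 : ℝ) : ℂ) * ((x : ℂ) + t * I) + 0)‖) * ‖riemannZeta ((x : ℂ) + t * I)‖
        = ‖completedRiemannZeta ((x : ℂ) + t * I)‖ := by
      intro x t hx
      set s : ℂ := (x : ℂ) + t * I with hs
      have hsre : s.re = x := by simp [hs]
      have hs0 : s ≠ 0 := by intro h; rw [h] at hsre; simp at hsre; linarith
      have hG : Gammaℝ s ≠ 0 := Gammaℝ_ne_zero_of_re_pos (by rw [hsre]; exact hx)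
      have h2 : completedRiemannZeta s = Gammaℝ s * riemannZeta s := by
        rw [riemannZeta_def_of_ne_zero hs0]; field_simp
      rw [h2, norm_mul, Gammaℝ_def, norm_mul]
      have h3 : ‖(Real.pi : ℂ) ^ (-s / 2)‖ = (Real.pi ^ (-(1 / 2) : ℝ)) ^ x := by
        rw [Complex.norm_cpow_eq_rpow_re_of_pos Real.pi_pos, ← Real.rpow_mul Real.pi_pos.le]
        congr 1
        have : (-s / 2).re = -s.re / 2 := by simp
        rw [this, hsre]; ring
      rw [h3]
      simp only [Finset.prod_const, Finset.card_univ, Fintype.card_fin, pow_one, add_zero]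
      congr 3
      congr 1
      push_cast
      ring
    have h2 := key σ t h0
    have h3 := key (1 - σ) t (by linarith)
    have h4 := key (1 - σ) (-t) (by linarith)
    rw [h2, h3]
    have h5 : completedRiemannZeta ((σ : ℂ) + t * I)
        = completedRiemannZeta (((1 - σ : ℝ) : ℂ) + (-t : ℝ) * I) := by
      rw [← completedRiemannZeta_one_sub]
      congr 1
      apply Complex.ext <;> simp
    rw [h5, ← h4, ← h3]
    have e1 : (((1 - σ : ℝ) : ℂ) + (-t : ℝ) * I) = conj (((1 - σ : ℝ) : ℂ) + t * I) := by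
      apply Complex.ext <;> simp
    have e2 : (((1 / 2 : ℝ) : ℂ) * (((1 - σ : ℝ) : ℂ) + (-t : ℝ) * I) + 0)
        = conj (((1 / 2 : ℝ) : ℂ) * (((1 - σ : ℝ) : ℂ) + t * I) + 0) := by
      apply Complex.ext <;> simp
    rw [e2, e1, riemannZeta_conj, Complex.Gamma_conj, Complex.norm_conj, Complex.norm_conj]

end Pool.Agent.SelPole
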