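import Mathlib

/-! Definitions for MP_995735_nt: the Selberg class, written as in the problem file. -/

namespace Pool.Agent.SelPole

open Complex

/-- `g` is of finite order: `|g(s)| ≤ C exp((1 + |s|)^A)` for some real `A`, `C` and all `s`. -/
def FiniteOrder (g : ℂ → ℂ) : Prop :=
  ∃ A C : ℝ, ∀ s : ℂ, ‖g s‖ ≤ C * Real.exp ((1 + ‖s‖) ^ A)

/-- The functional equation of the Selberg class. With `Q > 0`, `lam j > 0`, `Re (mu j) ≥ 0` and
`|w| = 1`, the function `Φ(s) = Q^s ∏ Γ(lam_j s + mu_j) F(s)` satisfies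
`Φ(s) = w * conj (Φ (1 - conj s))`. It is stated on the open strip `0 < Re s < 1`, where all
factors are finite; by analytic continuation this is the identity of meromorphic functions. -/
def HasFunctionalEquation (F : ℂ → ℂ) : Prop :=
  ∃ (Q : ℝ) (k : ℕ) (lam : Fin k → ℝ) (mu : Fin k → ℂ) (w : ℂ),
    0 < Q ∧ (∀ j, 0 < lam j) ∧ (∀ j, 0 ≤ (mu j).re) ∧ ‖w‖ = 1 ∧
    ∀ s : ℂ, 0 < s.re → s.re < 1 →
      (Q : ℂ) ^ s * (∏ j, Gamma (lam j * s + mu j)) * F s =
        w * (starRingEnd ℂ) ((Q : ℂ) ^ (1 - (starRingEnd ℂ) s) *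
          (∏ j, Gamma (lam j * (1 - (starRingEnd ℂ) s) + mu j)) * F (1 - (starRingEnd ℂ) s))

/-- `IsSelberg F a b`: `F` belongs to the Selberg class, with Dirichlet coefficients `a` and
coefficients `b` of `log F`. The value `F 1` is not constrained. -/
structure IsSelberg (F : ℂ → ℂ) (a b : ℕ → ℂ) : Prop where
  /-- absolute convergence for `Re s > 1` -/
  summable : ∀ s : ℂ, 1 < s.re → LSeriesSummable a s
  /-- `F(s) = ∑ a(n) n^(-s)` for `Re s > 1` -/
  eq_series : ∀ s : ℂ, 1 < s.re → F s = LSeries a s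
  /-- `(s-1)^m F(s)` extends to an entire function of finite order -/
  continuation : ∃ (m : ℕ) (g : ℂ → ℂ), Differentiable ℂ g ∧ FiniteOrder g ∧
    ∀ s : ℂ, s ≠ 1 → g s = (s - 1) ^ m * F s
  /-- functional equation -/
  functional : HasFunctionalEquation F
  /-- Ramanujan hypothesis -/
  ramanujan : ∀ ε : ℝ, 0 < ε → ∃ C : ℝ, ∀ n : ℕ, 1 ≤ n → ‖a n‖ ≤ C * (n : ℝ) ^ ε
  /-- normalisation -/
  a_one : a 1 = 1
  /-- the series of `log F` converges absolutely for `Re s > 1` -/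
  log_summable : ∀ s : ℂ, 1 < s.re → LSeriesSummable b s
  /-- `log F(s) = ∑ b(n) n^(-s)` for `Re s > 1` -/
  log_series : ∀ s : ℂ, 1 < s.re → F s = exp (LSeries b s)
  /-- `b` is supported on prime powers -/
  b_supp : ∀ n : ℕ, ¬ IsPrimePow n → b n = 0
  /-- `b(n) ≪ n^θ` for some `θ < 1/2` -/
  b_bound : ∃ θ C : ℝ, θ < 1 / 2 ∧ ∀ n : ℕ, 1 ≤ n → ‖b n‖ ≤ C * (n : ℝ) ^ θ

/-- The class of Euler products used for the second function `L`: absolutely convergent series of
`log L` for `Re s > 1`, continuation with at most a pole at `1`, functional equation. Neither the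
Ramanujan hypothesis nor finite order is required. -/
structure IsEulerProduct (F : ℂ → ℂ) (b : ℕ → ℂ) : Prop where
  log_summable : ∀ s : ℂ, 1 < s.re → LSeriesSummable b s
  log_series : ∀ s : ℂ, 1 < s.re → F s = exp (LSeries b s)
  b_one : b 1 = 0
  continuation : ∃ (m : ℕ) (g : ℂ → ℂ), Differentiable ℂ g ∧
    ∀ s : ℂ, s ≠ 1 → g s = (s - 1) ^ m * F s
  functional : HasFunctionalEquation F

end Pool.Agent.SelPole
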