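import Mathlib

/-! If the real part of an absolutely convergent Dirichlet series has a limit along a vertical
line, then all coefficients of index at least 2 vanish. -/

namespace Pool.Agent.SelPole

open Complex Filter Topology MeasureTheory

/-- average of `exp(iut)` over `[T,2T]` -/
noncomputable def avg (u T : ℝ) : ℂ := (1 / T : ℂ) * ∫ t in T..2 * T, exp (u * t * I)

theorem avg_zero {T : ℝ} (hT : 0 < T) : avg 0 T = 1 := by
  have : (T : ℂ) ≠ 0 := by exact_mod_cast hT.ne'
  simp only [avg, Complex.ofReal_zero, zero_mul, Complex.exp_zero, intervalIntegral.integral_const]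
  rw [show 2 * T - T = T by ring, Complex.real_smul]
  field_simp

theorem avg_norm_le (u : ℝ) {T : ℝ} (hT : 0 < T) : ‖avg u T‖ ≤ 1 := by
  have h1 : ‖∫ t in T..2 * T, exp (u * t * I)‖ ≤ 1 * |2 * T - T| := by
    apply intervalIntegral.norm_integral_le_of_norm_le_const
    intro t _
    rw [show (u : ℂ) * t * I = ((u * t : ℝ) : ℂ) * I by push_cast; ring, Complex.norm_exp_ofReal_mul_I]
  rw [show 2 * T - T = T by ring, abs_of_pos hT, one_mul] at h1
  rw [avg, norm_mul, norm_div, norm_one, Complex.norm_real, Real.norm_of_nonneg hT.le,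
    one_div, inv_mul_le_iff₀ hT, mul_one]
  exact h1

theorem avg_tendsto {u : ℝ} (hu : u ≠ 0) : Tendsto (avg u) atTop (𝓝 0) := by
  have hb : ∀ᶠ T : ℝ in atTop, ‖avg u T‖ ≤ (2 / |u|) * T⁻¹ := by
    filter_upwards [eventually_gt_atTop 0] with T hT
    have hc : (u : ℂ) * I ≠ 0 := mul_ne_zero (by exact_mod_cast hu) I_ne_zero
    have h1 : ∫ t in T..2 * T, exp (u * t * I) = (exp ((u : ℂ) * I * (2 * T : ℝ))
        - exp ((u : ℂ) * I * T)) / ((u : ℂ) * I) := by
      rw [← integral_exp_mul_complex hc]
      congr 1
      ext t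
      congr 1
      ring
    have h2 : ‖exp ((u : ℂ) * I * (2 * T : ℝ)) - exp ((u : ℂ) * I * T)‖ ≤ 2 := by
      refine (norm_sub_le _ _).trans ?_
      rw [show (u : ℂ) * I * (2 * T : ℝ) = ((u * (2 * T) : ℝ) : ℂ) * I by push_cast; ring,
        show (u : ℂ) * I * T = ((u * T : ℝ) : ℂ) * I by push_cast; ring,
        Complex.norm_exp_ofReal_mul_I, Complex.norm_exp_ofReal_mul_I]
      norm_num
    rw [avg, h1, norm_mul, norm_div, norm_div, norm_one, Complex.norm_real,
      Real.norm_of_nonneg hT.le, norm_mul, Complex.norm_I, mul_one, Complex.norm_real,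
      Real.norm_eq_abs]
    have h3 : 0 < |u| := abs_pos.mpr hu
    have h4 := div_le_div_of_nonneg_right h2 h3.le
    have h5 := mul_le_mul_of_nonneg_left h4 (show 0 ≤ 1 / T by positivity)
    refine h5.trans (le_of_eq ?_)
    ring
  have h0 : Tendsto (fun T : ℝ => (2 / |u|) * T⁻¹) atTop (𝓝 0) := by
    have := tendsto_inv_atTop_zero (𝕜 := ℝ) |>.const_mul (2 / |u|)
    rwa [mul_zero] at this
  exact squeeze_zero_norm' hb h0

/-- the oscillating factor `n^(-it)` -/
noncomputable def osc (n : ℕ) (t : ℝ) : ℂ := exp (-(Real.log n : ℂ) * t * I)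

theorem norm_osc (n : ℕ) (t : ℝ) : ‖osc n t‖ = 1 := by
  rw [osc, show -(Real.log n : ℂ) * t * I = ((-(Real.log n) * t : ℝ) : ℂ) * I by push_cast; ring,
    Complex.norm_exp_ofReal_mul_I]

theorem ap_unique {d : ℕ → ℂ} (hd : Summable (fun n => ‖d n‖)) (h0 : d 0 = 0) {K : ℝ}
    (hlim : Tendsto (fun t : ℝ => (∑' n, d n * osc n t).re) atTop (𝓝 K)) :
    ∀ m : ℕ, 2 ≤ m → d m = 0 := by
  intro m hm
  set φ : ℝ → ℝ := fun t => (∑' n, d n * osc n t).re with hφ
  set μ : ℝ := Real.log m with hμ
  have hμ0 : 0 < μ := Real.log_pos (by exact_mod_cast hm)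
  -- the terms
  set g : ℕ → ℝ → ℂ := fun n t =>
    (d n * exp (((μ - Real.log n : ℝ) : ℂ) * t * I)
      + (starRingEnd ℂ) (d n) * exp (((μ + Real.log n : ℝ) : ℂ) * t * I)) / 2 with hg
  have hgnorm : ∀ n t, ‖g n t‖ ≤ ‖d n‖ := by
    intro n t
    simp only [hg]
    rw [norm_div, Complex.norm_ofNat]
    have h1 : ‖d n * exp (((μ - Real.log n : ℝ) : ℂ) * t * I)
      + (starRingEnd ℂ) (d n) * exp (((μ + Real.log n : ℝ) : ℂ) * t * I)‖ ≤ ‖d n‖ + ‖d n‖ := by
      refine (norm_add_le _ _).trans ?_
      rw [norm_mul, norm_mul, Complex.norm_conj]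
      rw [show (((μ - Real.log n : ℝ) : ℂ)) * t * I = (((μ - Real.log n) * t : ℝ) : ℂ) * I by
        push_cast; ring,
        show (((μ + Real.log n : ℝ) : ℂ)) * t * I = (((μ + Real.log n) * t : ℝ) : ℂ) * I by
        push_cast; ring, Complex.norm_exp_ofReal_mul_I, Complex.norm_exp_ofReal_mul_I]
      simp
    linarith
  have hsumφ : ∀ t, Summable (fun n => d n * osc n t) := by
    intro t
    refine Summable.of_norm ?_
    refine hd.congr (fun n => ?_)
    rw [norm_mul, norm_osc, mul_one]
  have hHas : ∀ t : ℝ, HasSum (fun n => g n t) ((φ t : ℂ) * exp ((μ : ℂ) * t * I)) := by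
    intro t
    have h1 : HasSum (fun n => d n * osc n t) (∑' n, d n * osc n t) := (hsumφ t).hasSum
    have h2 : HasSum (fun n => (starRingEnd ℂ) (d n * osc n t)) ((starRingEnd ℂ) (∑' n, d n * osc n t)) := by
      exact (Complex.hasSum_conj'.mpr (by simpa using h1))
    have h3 := ((h1.add h2).div_const 2).mul_right (exp ((μ : ℂ) * t * I))
    have h4 : ((∑' n, d n * osc n t) + (starRingEnd ℂ) (∑' n, d n * osc n t)) / 2 = (φ t : ℂ) := by
      rw [Complex.add_conj]
      simp [hφ]
    rw [h4] at h3
    refine h3.congr_fun ?_ |> fun h => h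
    intro n
    simp only [hg, osc]
    rw [map_mul, ← Complex.exp_conj]
    have e1 : (starRingEnd ℂ) (-(Real.log n : ℂ) * t * I) = (Real.log n : ℂ) * t * I := by
      rw [map_mul, map_mul, map_neg, Complex.conj_ofReal, Complex.conj_ofReal, Complex.conj_I]
      ring
    rw [e1]
    have e2 : exp (((μ - Real.log n : ℝ) : ℂ) * t * I)
        = exp (-(Real.log n : ℂ) * t * I) * exp ((μ : ℂ) * t * I) := by
      rw [← Complex.exp_add]; congr 1; push_cast; ring
    have e3 : exp (((μ + Real.log n : ℝ) : ℂ) * t * I)
        = exp ((Real.log n : ℂ) * t * I) * exp ((μ : ℂ) * t * I) := by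
      rw [← Complex.exp_add]; congr 1; push_cast; ring
    rw [e2, e3]
    ring
  have hcont : ∀ n, Continuous (g n) := by
    intro n
    simp only [hg]
    fun_prop
  -- integrated identity
  have hint : ∀ T : ℝ, 0 < T → HasSum (fun n => ∫ t in T..2 * T, g n t)
      (∫ t in T..2 * T, (φ t : ℂ) * exp ((μ : ℂ) * t * I)) := by
    intro T hT
    apply intervalIntegral.hasSum_integral_of_dominated_convergence (fun n _ => ‖d n‖)
    · intro n; exact (hcont n).aestronglyMeasurable
    · intro n; filter_upwards with t _ using hgnorm n t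
    · filter_upwards with t _ using hd
    · exact intervalIntegrable_const
    · filter_upwards with t _ using hHas t
  have hgint : ∀ (n : ℕ) (T : ℝ), 0 < T → (1 / T : ℂ) * ∫ t in T..2 * T, g n t
      = (d n * avg (μ - Real.log n) T + (starRingEnd ℂ) (d n) * avg (μ + Real.log n) T) / 2 := by
    intro n T hT
    simp only [hg]
    rw [intervalIntegral.integral_div, intervalIntegral.integral_add,
      intervalIntegral.integral_const_mul, intervalIntegral.integral_const_mul]
    · simp only [avg]
      ring
    · apply Continuous.intervalIntegrable; fun_prop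
    · apply Continuous.intervalIntegrable; fun_prop
  -- limit of the series side
  have hser : Tendsto (fun T : ℝ => ∑' n, (1 / T : ℂ) * ∫ t in T..2 * T, g n t) atTop
      (𝓝 (∑' n, if n = m then d m / 2 else 0)) := by
    apply tendsto_tsum_of_dominated_convergence (bound := fun n => ‖d n‖) hd
    · intro n
      have hcong : (fun T : ℝ => (d n * avg (μ - Real.log n) T
          + (starRingEnd ℂ) (d n) * avg (μ + Real.log n) T) / 2) =ᶠ[atTop]
          (fun T : ℝ => (1 / T : ℂ) * ∫ t in T..2 * T, g n t) := by
        filter_upwards [eventually_gt_atTop 0] with T hT using (hgint n T hT).symm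
      refine Tendsto.congr' hcong ?_
      by_cases hn0 : n = 0
      · subst hn0
        simp only [h0, map_zero, zero_mul, add_zero, zero_div]
        rw [if_neg (by omega)]
        exact tendsto_const_nhds
      have hlogn : 0 ≤ Real.log n := Real.log_natCast_nonneg n
      have h2 : Tendsto (avg (μ + Real.log n)) atTop (𝓝 0) := avg_tendsto (by linarith)
      by_cases hnm : n = m
      · subst hnm
        simp only [if_true]
        have h1 : Tendsto (avg (μ - Real.log n)) atTop (𝓝 1) := by
          have e : μ - Real.log n = 0 := by simp [hμ]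
          rw [e]
          refine tendsto_const_nhds.congr' ?_
          filter_upwards [eventually_gt_atTop 0] with T hT using (avg_zero hT).symm
        have := ((h1.const_mul (d n)).add (h2.const_mul ((starRingEnd ℂ) (d n)))).div_const 2
        simpa using this
      · rw [if_neg hnm]
        have hne : μ - Real.log n ≠ 0 := by
          intro h
          apply hnm
          have h3 : Real.log n = Real.log m := by rw [← hμ]; linarith
          have hn1 : (0 : ℝ) < n := by exact_mod_cast Nat.pos_of_ne_zero hn0
          have hm1 : (0 : ℝ) < m := by exact_mod_cast (by omega : 0 < m)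
          exact_mod_cast Real.log_injOn_pos hn1 hm1 h3
        have h1 : Tendsto (avg (μ - Real.log n)) atTop (𝓝 0) := avg_tendsto hne
        have := ((h1.const_mul (d n)).add (h2.const_mul ((starRingEnd ℂ) (d n)))).div_const 2
        simpa using this
    · filter_upwards [eventually_gt_atTop 0] with T hT n
      rw [hgint n T hT, norm_div, Complex.norm_ofNat]
      have h1 : ‖d n * avg (μ - Real.log n) T + (starRingEnd ℂ) (d n) * avg (μ + Real.log n) T‖
          ≤ ‖d n‖ + ‖d n‖ := by
        refine (norm_add_le _ _).trans ?_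
        rw [norm_mul, norm_mul, Complex.norm_conj]
        have h2 := mul_le_mul_of_nonneg_left (avg_norm_le (μ - Real.log n) hT) (norm_nonneg (d n))
        have h3 := mul_le_mul_of_nonneg_left (avg_norm_le (μ + Real.log n) hT) (norm_nonneg (d n))
        linarith
      linarith
  rw [tsum_ite_eq] at hser
  -- limit of the function side
  have hfun : Tendsto (fun T : ℝ => ∑' n, (1 / T : ℂ) * ∫ t in T..2 * T, g n t) atTop (𝓝 0) := by
    have h1 : ∀ᶠ T : ℝ in atTop, ∑' n, (1 / T : ℂ) * ∫ t in T..2 * T, g n t
        = (1 / T : ℂ) * (∫ t in T..2 * T, ((φ t - K : ℝ) : ℂ) * exp ((μ : ℂ) * t * I))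
          + K * avg μ T := by
      filter_upwards [eventually_gt_atTop 0] with T hT
      have h2 := (hint T hT)
      have hφc : Continuous φ := by
        simp only [hφ]
        apply Complex.continuous_re.comp
        apply continuous_tsum (u := fun n => ‖d n‖)
        · intro n
          simp only [osc]
          fun_prop
        · exact hd
        · intro n t; rw [norm_mul, norm_osc, mul_one]
      rw [tsum_mul_left, h2.tsum_eq, avg]
      have h3 : ∫ t in T..2 * T, (φ t : ℂ) * exp ((μ : ℂ) * t * I)
          = (∫ t in T..2 * T, ((φ t - K : ℝ) : ℂ) * exp ((μ : ℂ) * t * I))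
            + K * ∫ t in T..2 * T, exp ((μ : ℂ) * t * I) := by
        rw [← intervalIntegral.integral_const_mul, ← intervalIntegral.integral_add]
        · congr 1
          ext t
          push_cast
          ring
        · apply Continuous.intervalIntegrable; fun_prop
        · apply Continuous.intervalIntegrable; fun_prop
      rw [h3]
      ring
    refine Tendsto.congr' (EventuallyEq.symm h1) ?_
    have h4 : Tendsto (fun T : ℝ => (1 / T : ℂ) * (∫ t in T..2 * T, ((φ t - K : ℝ) : ℂ)
        * exp ((μ : ℂ) * t * I))) atTop (𝓝 0) := by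
      rw [Metric.tendsto_atTop]
      intro ε hε
      obtain ⟨T0, hT0⟩ := Metric.tendsto_atTop.mp hlim (ε / 2) (by linarith)
      refine ⟨max T0 1, fun T hT => ?_⟩
      have hT1 : 0 < T := lt_of_lt_of_le one_pos ((le_max_right _ _).trans hT)
      rw [dist_zero_right, norm_mul, norm_div, norm_one, Complex.norm_real,
        Real.norm_of_nonneg hT1.le]
      have h5 : ‖∫ t in T..2 * T, ((φ t - K : ℝ) : ℂ) * exp ((μ : ℂ) * t * I)‖
          ≤ (ε / 2) * |2 * T - T| := by
        apply intervalIntegral.norm_integral_le_of_norm_le_const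
        intro t ht
        rw [Set.uIoc_of_le (by linarith)] at ht
        have h6 := hT0 t (le_trans (le_trans (le_max_left _ _) hT) ht.1.le)
        rw [Real.dist_eq] at h6
        rw [norm_mul, show (μ : ℂ) * t * I = ((μ * t : ℝ) : ℂ) * I by push_cast; ring,
          Complex.norm_exp_ofReal_mul_I, mul_one, Complex.norm_real, Real.norm_eq_abs]
        exact h6.le
      rw [show 2 * T - T = T by ring, abs_of_pos hT1] at h5
      have h6 := mul_le_mul_of_nonneg_left h5 (show 0 ≤ 1 / T by positivity)
      have h7 : 1 / T * (ε / 2 * T) = ε / 2 := by field_simp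
      linarith
    have h5 := h4.add ((avg_tendsto hμ0.ne').const_mul (K : ℂ))
    simpa using h5
  have := tendsto_nhds_unique hser hfun
  have h2 : d m / 2 = 0 := this
  simpa using h2

end Pool.Agent.SelPole
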