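import Pool.Agent.SelPole.Main

/-! Final assembly for MP_995735_nt. -/

namespace Pool.Agent.SelPole

open Complex Filter Topology Set
open scoped ComplexConjugate ArithmeticFunction.vonMangoldt

/-- coefficients of `-G'/G` for `G = ζ^r L` -/
noncomputable def gc (r : ℕ) (c : ℕ → ℝ) (n : ℕ) : ℝ := r * Λ n + c n * Real.log n

theorem zetaL_EulerFE (r : ℕ) {L : ℂ → ℂ} {c : ℕ → ℝ} (hL : IsEulerProduct L (fun n => (c n : ℂ))) :
    EulerFE (fun s => riemannZeta s ^ r * L s) (fun n => (gc r c n : ℂ)) := by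
  refine ((zeta_toEulerFE.pow r).mul hL.toEulerFE).congr_coeff (fun n => ?_)
  simp only [Pi.add_apply, ldc, gc]
  push_cast
  ring

theorem conjProd_EulerFE {F : ℂ → ℂ} {b : ℕ → ℂ} (hF : IsEulerProduct F b) :
    EulerFE (fun s => F s * conj (F (conj s))) (fun n => ((2 * (Real.log n * (b n).re) : ℝ) : ℂ)) := by
  refine (hF.toEulerFE.mul hF.toEulerFE_conj).congr_coeff (fun n => ?_)
  simp only [Pi.add_apply, ldc]
  rw [map_mul, Complex.conj_ofReal, ← mul_add, Complex.add_conj]
  push_cast
  ring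

theorem sq_EulerFE {G : ℂ → ℂ} {g : ℕ → ℝ} (hG : EulerFE G (fun n => (g n : ℂ))) :
    EulerFE (fun s => G s * G s) (fun n => ((2 * g n : ℝ) : ℂ)) := by
  refine (hG.mul hG).congr_coeff (fun n => ?_)
  simp only [Pi.add_apply]
  push_cast
  ring

/-- summability over the exceptional set -/
theorem thin_summable {E : Set ℕ} {w : ℕ → ℝ} {d : ℕ → ℂ} {σ K : ℝ}
    (hw : Summable (E.indicator fun n : ℕ => w n * (n : ℝ) ^ (-σ)))
    (hd : ∀ n, ‖d n‖ ≤ K * w n) : LSeriesSummable (E.indicator d) (σ : ℂ) := by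
  refine Summable.of_norm_bounded (hw.mul_left K) (fun n => ?_)
  rw [LSeries.norm_term_eq]
  by_cases hn : n = 0
  · subst hn
    rw [if_pos rfl]
    by_cases h0 : (0 : ℕ) ∈ E
    · rw [Set.indicator_of_mem h0]
      have h1 : 0 ≤ K * w 0 := (norm_nonneg _).trans (hd 0)
      have h2 : (0 : ℝ) ≤ ((0 : ℕ) : ℝ) ^ (-σ) := Real.rpow_nonneg (by simp) _
      rw [← mul_assoc]
      exact mul_nonneg h1 h2
    · rw [Set.indicator_of_notMem h0, mul_zero]
  · rw [if_neg hn, Complex.ofReal_re]
    have hn0 : (0 : ℝ) < n := by exact_mod_cast Nat.pos_of_ne_zero hn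
    by_cases h0 : n ∈ E
    · rw [Set.indicator_of_mem h0, Set.indicator_of_mem h0, Real.rpow_neg hn0.le,
        div_eq_mul_inv, ← mul_assoc]
      exact mul_le_mul_of_nonneg_right (hd n) (by positivity)
    · rw [Set.indicator_of_notMem h0, Set.indicator_of_notMem h0]
      simp

/-- orders of `ζ^r L` -/
theorem order_zetaL (r : ℕ) {L : ℂ → ℂ} (hL : Differentiable ℂ L) (x : ℂ) :
    meromorphicOrderAt (fun s => riemannZeta s ^ r * L s) x
      = (r : WithTop ℤ) * meromorphicOrderAt riemannZeta x + meromorphicOrderAt L x := by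
  have h1 : MeromorphicAt riemannZeta x := zeta_toEulerFE.meromorphicAt x
  have h2 : MeromorphicAt L x := (hL.analyticAt x).meromorphicAt
  have h3 := meromorphicOrderAt_mul (h1.pow r) h2
  have h4 : (fun s => riemannZeta s ^ r * L s) = riemannZeta ^ r * L := rfl
  rw [h4, h3, meromorphicOrderAt_pow h1]

theorem order_zeta_real {x : ℝ} (h0 : 0 < x) (h1 : x < 1) : meromorphicOrderAt riemannZeta x = 0 := by
  have hx : (x : ℂ) ≠ 1 := by
    intro h
    have : x = 1 := by exact_mod_cast h
    linarith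
  have h2 : AnalyticAt ℂ riemannZeta x := by
    apply Complex.analyticAt_iff_eventually_differentiableAt.mpr
    filter_upwards [isOpen_ne.mem_nhds hx] with z hz using differentiableAt_riemannZeta hz
  rw [← WithTop.coe_zero, meromorphicOrderAt_eq_int_iff h2.meromorphicAt]
  exact ⟨riemannZeta, h2, zeta_ne_zero_real h0 h1, Eventually.of_forall (fun z => by simp)⟩

theorem order_zeta_one : meromorphicOrderAt riemannZeta 1 = ((-1 : ℤ) : WithTop ℤ) := by
  rw [meromorphicOrderAt_eq_int_iff (zeta_toEulerFE.meromorphicAt 1)]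
  refine ⟨riemannZeta₁, differentiable_riemannZeta₁.analyticAt 1, ?_, ?_⟩
  · rw [riemannZeta₁_one]; exact one_ne_zero
  · filter_upwards [self_mem_nhdsWithin] with z hz
    rw [riemannZeta_eq_inv_sub_mul hz, zpow_neg_one, smul_eq_mul]

/-- order of a member of the class at a point different from 1 -/
theorem order_nonneg {F : ℂ → ℂ} {c : ℕ → ℂ} (hF : EulerFE F c) {x : ℂ} (hx : x ≠ 1) :
    0 ≤ meromorphicOrderAt F x := by
  obtain ⟨m, g, hg, hge⟩ := hF.cont
  have h1 : AnalyticAt ℂ F x := by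
    apply Complex.analyticAt_iff_eventually_differentiableAt.mpr
    filter_upwards [isOpen_ne.mem_nhds hx] with z hz
    have h2 : DifferentiableAt ℂ (fun s => g s / (s - 1) ^ m) z := by
      have h3 : (z - 1) ^ m ≠ 0 := pow_ne_zero _ (sub_ne_zero.mpr hz)
      have h4 := hg z
      exact h4.div (by fun_prop) h3
    refine h2.congr_of_eventuallyEq ?_
    filter_upwards [isOpen_ne.mem_nhds hz] with w hw
    rw [hge w hw]
    have : (w - 1) ^ m ≠ 0 := pow_ne_zero _ (sub_ne_zero.mpr hw)
    field_simp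
  exact h1.meromorphicOrderAt_nonneg

/-- order of `F F̃` at real points -/
theorem order_conjProd {F : ℂ → ℂ} {b : ℕ → ℂ} (hF : IsEulerProduct F b) (x : ℝ) :
    meromorphicOrderAt (fun s => F s * conj (F (conj s))) x
      = meromorphicOrderAt F x + meromorphicOrderAt F x := by
  have h1 := hF.toEulerFE.meromorphicAt (x : ℂ)
  have h2 := hF.toEulerFE_conj.meromorphicAt (x : ℂ)
  have h3 := meromorphicOrderAt_mul h1 h2
  rw [order_conj hF.toEulerFE hF.toEulerFE_conj x] at h3
  exact h3

theorem order_sq {G : ℂ → ℂ} {g : ℕ → ℂ} (hG : EulerFE G g) (x : ℂ) :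
    meromorphicOrderAt (fun s => G s * G s) x = meromorphicOrderAt G x + meromorphicOrderAt G x :=
  meromorphicOrderAt_mul (hG.meromorphicAt x) (hG.meromorphicAt x)

/-- the order of `ζ^r L` at `1` -/
theorem order_zetaL_one (r : ℕ) {L : ℂ → ℂ} (hL : Differentiable ℂ L) :
    meromorphicOrderAt (fun s => riemannZeta s ^ r * L s) 1
      = ((-(r : ℤ) : ℤ) : WithTop ℤ) + meromorphicOrderAt L 1 := by
  rw [order_zetaL r hL 1, order_zeta_one]
  congr 1
  have : ((r : ℕ) : WithTop ℤ) = (((r : ℤ)) : WithTop ℤ) := by simp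
  rw [this, ← WithTop.coe_mul]
  congr 1
  ring

theorem order_zetaL_real (r : ℕ) {L : ℂ → ℂ} (hL : Differentiable ℂ L) {x : ℝ} (h0 : 0 < x)
    (h1 : x < 1) : meromorphicOrderAt (fun s => riemannZeta s ^ r * L s) x
      = meromorphicOrderAt L x := by
  rw [order_zetaL r hL x, order_zeta_real h0 h1, mul_zero, zero_add]

/-- weight of the exceptional set -/
noncomputable def wt (b : ℕ → ℂ) (c : ℕ → ℝ) (n : ℕ) : ℝ := (‖b n‖ + |c n|) * Real.log n + Λ n

theorem wt_bound (r : ℕ) (b : ℕ → ℂ) (c : ℕ → ℝ) (n : ℕ) :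
    |gc r c n| + Real.log n * ‖b n‖ ≤ (r + 1) * wt b c n := by
  have hl : 0 ≤ Real.log n := Real.log_natCast_nonneg n
  have hΛ : 0 ≤ Λ n := ArithmeticFunction.vonMangoldt_nonneg
  have hr : (0 : ℝ) ≤ r := Nat.cast_nonneg r
  have h1 : |gc r c n| ≤ r * Λ n + |c n| * Real.log n := by
    rw [gc]
    refine (abs_add_le _ _).trans ?_
    rw [abs_mul, abs_mul, abs_of_nonneg hr, abs_of_nonneg hΛ, abs_of_nonneg hl]
  simp only [wt]
  nlinarith [mul_nonneg (abs_nonneg (c n)) hl, mul_nonneg (norm_nonneg (b n)) hl,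
    mul_nonneg hr (mul_nonneg (abs_nonneg (c n)) hl), mul_nonneg hr (mul_nonneg (norm_nonneg (b n)) hl)]

theorem thin_diff (r : ℕ) {b : ℕ → ℂ} {c : ℕ → ℝ} {E : Set ℕ} {σ : ℝ}
    (hw : Summable (E.indicator fun n : ℕ => wt b c n * (n : ℝ) ^ (-σ))) :
    LSeriesSummable (E.indicator fun n => ((2 * gc r c n - 2 * (Real.log n * (b n).re) : ℝ) : ℂ)) σ := by
  refine thin_summable (K := 2 * (r + 1)) hw (fun n => ?_)
  have hl : 0 ≤ Real.log n := Real.log_natCast_nonneg n
  rw [Complex.norm_real, Real.norm_eq_abs]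
  have h1 := wt_bound r b c n
  have h2 : |Real.log n * (b n).re| ≤ Real.log n * ‖b n‖ := by
    rw [abs_mul, abs_of_nonneg hl]
    exact mul_le_mul_of_nonneg_left (Complex.abs_re_le_norm _) hl
  calc |2 * gc r c n - 2 * (Real.log n * (b n).re)|
      ≤ |2 * gc r c n| + |2 * (Real.log n * (b n).re)| := abs_sub _ _
    _ = 2 * |gc r c n| + 2 * |Real.log n * (b n).re| := by
        rw [abs_mul, abs_mul, abs_of_pos (by norm_num : (0 : ℝ) < 2)]
    _ ≤ 2 * (r + 1) * wt b c n := by linarith

theorem zetaL_tendsto (r : ℕ) {L : ℂ → ℂ} {c : ℕ → ℝ} (hL : IsEulerProduct L (fun n => (c n : ℂ))) :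
    Tendsto (fun x : ℝ => riemannZeta x ^ r * L x) atTop (𝓝 1) := by
  have := (zeta_tendsto_one.pow r).mul hL.tendsto_one
  simpa using this

/-- Domination from above. -/
theorem dominated {F : ℂ → ℂ} {b : ℕ → ℂ} (hF : IsEulerProduct F b) {r : ℕ}
    (hpole : meromorphicOrderAt F 1 = ((-(r : ℤ) : ℤ) : WithTop ℤ))
    {L : ℂ → ℂ} {c : ℕ → ℝ} (hL : IsEulerProduct L (fun n => (c n : ℂ)))
    (hLent : Differentiable ℂ L) {E : Set ℕ} {σ₀ : ℝ} (hσ₀ : σ₀ < 1 / 2)
    (hE : Summable (E.indicator fun n : ℕ => wt b c n * (n : ℝ) ^ (-σ₀)))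
    (hdom : ∀ n : ℕ, n ∉ E → ‖b n‖ * Real.log n ≤ gc r c n) :
    (∀ s : ℂ, s ≠ 1 → F s = riemannZeta s ^ r * L s) ∨
      ∃ x : ℝ, 1 / 2 ≤ x ∧ x < 1 ∧ meromorphicOrderAt L x < meromorphicOrderAt F x := by
  by_cases halt : ∃ x : ℝ, 1 / 2 ≤ x ∧ x < 1 ∧ meromorphicOrderAt L x < meromorphicOrderAt F x
  · exact Or.inr halt
  left
  push Not at halt
  have hG := zetaL_EulerFE r hL
  have hP := conjProd_EulerFE hF
  have hR := sq_EulerFE hG
  have hord : ∀ x : ℝ, 1 / 2 ≤ x → x ≤ 1 →
      meromorphicOrderAt (fun s => F s * conj (F (conj s))) x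
        ≤ meromorphicOrderAt (fun s => (riemannZeta s ^ r * L s) * (riemannZeta s ^ r * L s)) x := by
    intro x h1 h2
    rw [order_conjProd hF, order_sq hG]
    have h3 : meromorphicOrderAt F x ≤ meromorphicOrderAt (fun s => riemannZeta s ^ r * L s) x := by
      rcases lt_or_eq_of_le h2 with h4 | h4
      · rw [order_zetaL_real r hLent (by linarith) h4]
        exact halt x h1 h4
      · rw [h4, Complex.ofReal_one, order_zetaL_one r hLent, hpole]
        have h5 : 0 ≤ meromorphicOrderAt L 1 := (hLent.analyticAt 1).meromorphicOrderAt_nonneg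
        exact le_add_of_nonneg_right h5
    exact add_le_add h3 h3
  have hdom' : ∀ n ∉ E, 2 * (Real.log n * (b n).re) ≤ 2 * gc r c n := by
    intro n hn
    have h1 := hdom n hn
    have hl : 0 ≤ Real.log n := Real.log_natCast_nonneg n
    have h2 := mul_le_mul_of_nonneg_left ((le_abs_self _).trans (Complex.abs_re_le_norm (b n))) hl
    linarith
  have hrig := compare_rigid hP hR hσ₀ (thin_diff r hE) hdom' hord
  -- second step
  have hF' := hF.toEulerFE
  have hsumm : LSeriesSummable ((fun n => (gc r c n : ℂ)) - ldc b) σ₀ := by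
    have h1 : LSeriesSummable (E.indicator ((fun n => (gc r c n : ℂ)) - ldc b)) σ₀ := by
      refine thin_summable (K := r + 1) hE (fun n => ?_)
      rw [Pi.sub_apply]
      refine (norm_sub_le _ _).trans ?_
      rw [Complex.norm_real, ldc, norm_mul, Complex.norm_real, Real.norm_eq_abs,
        Real.norm_of_nonneg (Real.log_natCast_nonneg n)]
      exact wt_bound r b c n
    refine (LSeriesSummable_congr σ₀ (fun {n} hn => ?_)).mp h1
    by_cases hnE : n ∈ E
    · rw [Set.indicator_of_mem hnE]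
    · rw [Set.indicator_of_notMem hnE]
      by_cases hn1 : n = 1
      · subst hn1
        simp [gc, ldc]
      · have h2 : 2 ≤ n := by omega
        have hl : 0 < Real.log n := Real.log_pos (by exact_mod_cast h2)
        have h3 := hrig n h2
        have h4 := hdom n hnE
        have h5 : gc r c n = Real.log n * (b n).re := by linarith
        have h6 : ‖b n‖ ≤ (b n).re := by
          rw [h5] at h4
          have : Real.log n * ‖b n‖ ≤ Real.log n * (b n).re := by linarith
          exact le_of_mul_le_mul_left this hl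
        have h7 : ((b n).re : ℂ) = b n := by
          have h8 : (b n).re = ‖b n‖ := le_antisymm ((le_abs_self _).trans (Complex.abs_re_le_norm _)) h6
          have h9 : ‖b n‖ ^ 2 = (b n).re ^ 2 + (b n).im ^ 2 := by
            rw [← Complex.normSq_eq_norm_sq, Complex.normSq_apply]; ring
          rw [h8] at h9
          have h10 : (b n).im ^ 2 = 0 := by
            have : (b n).re ^ 2 = ‖b n‖ ^ 2 := by rw [h8]
            nlinarith
          have h11 : (b n).im = 0 := by
            exact pow_eq_zero_iff two_ne_zero |>.mp h10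
          apply Complex.ext
          · simp
          · simp [h11]
        rw [Pi.sub_apply, h5, ldc]
        push_cast
        rw [h7]
        simp
  have hab : LSeries.abscissaOfAbsConv ((fun n => (gc r c n : ℂ)) - ldc b) ≤ σ₀ := by
    have := hsumm.abscissaOfAbsConv_le
    simpa using this
  have hrig2 := rigid hF' hG hσ₀ hab
  exact fun s hs => (eq_of_coeff hF' hG hrig2 hF.tendsto_one (zetaL_tendsto r hL) s hs).symm

/-- Domination from below. -/
theorem dominates {F : ℂ → ℂ} {b : ℕ → ℂ} (hF : IsEulerProduct F b) {r : ℕ}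
    (hpole : meromorphicOrderAt F 1 = ((-(r : ℤ) : ℤ) : WithTop ℤ))
    {L : ℂ → ℂ} {c : ℕ → ℝ} (hL : IsEulerProduct L (fun n => (c n : ℂ)))
    (hLent : Differentiable ℂ L) (hL1 : L 1 ≠ 0)
    (hLx : ∀ x : ℝ, 1 / 2 ≤ x → x < 1 → meromorphicOrderAt L x ≤ meromorphicOrderAt F x)
    {E : Set ℕ} {σ₀ : ℝ} (hσ₀ : σ₀ < 1 / 2)
    (hE : Summable (E.indicator fun n : ℕ => wt b c n * (n : ℝ) ^ (-σ₀)))
    (hdom : ∀ n : ℕ, n ∉ E → gc r c n ≤ (b n).re * Real.log n) :
    (∀ s : ℂ, s ≠ 1 → F s * conj (F (conj s)) = (riemannZeta s ^ r * L s) ^ 2) ∧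
      ((∀ n, (b n).im = 0) → ∀ s : ℂ, s ≠ 1 → F s = riemannZeta s ^ r * L s) := by
  have hG := zetaL_EulerFE r hL
  have hP := conjProd_EulerFE hF
  have hR := sq_EulerFE hG
  have hord : ∀ x : ℝ, 1 / 2 ≤ x → x ≤ 1 →
      meromorphicOrderAt (fun s => (riemannZeta s ^ r * L s) * (riemannZeta s ^ r * L s)) x
        ≤ meromorphicOrderAt (fun s => F s * conj (F (conj s))) x := by
    intro x h1 h2
    rw [order_conjProd hF, order_sq hG]
    have h3 : meromorphicOrderAt (fun s => riemannZeta s ^ r * L s) x ≤ meromorphicOrderAt F x := by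
      rcases lt_or_eq_of_le h2 with h4 | h4
      · rw [order_zetaL_real r hLent (by linarith) h4]
        exact hLx x h1 h4
      · rw [h4, Complex.ofReal_one, order_zetaL_one r hLent, hpole]
        have h5 : meromorphicOrderAt L 1 = 0 := by
          rw [← WithTop.coe_zero, meromorphicOrderAt_eq_int_iff (hLent.analyticAt 1).meromorphicAt]
          exact ⟨L, hLent.analyticAt 1, hL1, Eventually.of_forall (fun z => by simp)⟩
        rw [h5, add_zero]
    exact add_le_add h3 h3
  have hdom' : ∀ n ∉ E, 2 * gc r c n ≤ 2 * (Real.log n * (b n).re) := by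
    intro n hn
    have h1 := hdom n hn
    linarith
  have hthin : LSeriesSummable (E.indicator fun n =>
      ((2 * (Real.log n * (b n).re) - 2 * gc r c n : ℝ) : ℂ)) σ₀ := by
    have h1 := (thin_diff r hE).neg
    refine (LSeriesSummable_congr (σ₀ : ℂ) (fun {n} _ => ?_)).mp h1
    rw [Pi.neg_apply]
    by_cases hn : n ∈ E
    · rw [Set.indicator_of_mem hn, Set.indicator_of_mem hn]; push_cast; ring
    · rw [Set.indicator_of_notMem hn, Set.indicator_of_notMem hn]; simp
  have hrig := compare_rigid hR hP hσ₀ hthin hdom' hord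
  have hFt := hF.tendsto_one
  constructor
  · have hlimR : Tendsto (fun x : ℝ => (riemannZeta x ^ r * L x) * (riemannZeta x ^ r * L x)) atTop
        (𝓝 1) := by
      have := (zetaL_tendsto r hL).mul (zetaL_tendsto r hL)
      simpa using this
    have hlimP : Tendsto (fun x : ℝ => F x * conj (F (conj (x : ℂ)))) atTop (𝓝 1) := by
      have h1 : Tendsto (fun x : ℝ => conj (F (conj (x : ℂ)))) atTop (𝓝 1) := by
        simp only [Complex.conj_ofReal]
        have := (Complex.continuous_conj.tendsto 1).comp hFt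
        rw [map_one] at this
        exact this
      have := hFt.mul h1
      simpa using this
    intro s hs
    have := eq_of_coeff hR hP (fun n hn => by
      have := hrig n hn
      exact_mod_cast this) hlimR hlimP s hs
    rw [this]; ring
  · intro hreal s hs
    refine eq_of_coeff hG hF.toEulerFE (fun n hn => ?_) (zetaL_tendsto r hL) hFt s hs
    have h1 := hrig n hn
    have h2 : gc r c n = Real.log n * (b n).re := by linarith
    have h3 : b n = ((b n).re : ℂ) := by
      apply Complex.ext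
      · simp
      · simp [hreal n]
    rw [h2, ldc]
    push_cast
    rw [← h3]

end Pool.Agent.SelPole
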