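import Pool.Agent.SelPole.Final

/-! Half-plane statements. -/

namespace Pool.Agent.SelPole

open Complex Filter Topology Set
open scoped ComplexConjugate ArithmeticFunction.vonMangoldt

/-- `R / P` in the half-plane of absolute convergence of the difference series -/
theorem factor {P R : ℂ → ℂ} {p q : ℕ → ℂ} (hP : EulerFE P p) (hR : EulerFE R q) {β : ℝ}
    (hβ : β ≤ 1) (hs : LSeries.abscissaOfAbsConv (q - p) ≤ β) :
    ∃ V : ℂ → ℂ, DifferentiableOn ℂ V {s | β < s.re} ∧ (∀ s : ℂ, β < s.re → V s ≠ 0) ∧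
      ∀ s : ℂ, β < s.re → s ≠ 1 → R s = P s * V s := by
  obtain ⟨C, hC0, hC⟩ := quotient hP hR hβ hs
  have he1 : (q - p) 1 = 0 := by
    rw [Pi.sub_apply, hP.one, hR.one, sub_zero]
  refine ⟨fun s => C * exp (LSeries (unlog (q - p)) s), ?_, ?_, ?_⟩
  · intro s hs'
    have hab2 : LSeries.abscissaOfAbsConv (unlog (q - p)) < s.re := by
      refine lt_of_le_of_lt ?_ (show ((β : ℝ) : EReal) < s.re by exact_mod_cast hs')
      refine LSeries.abscissaOfAbsConv_le_of_forall_lt_LSeriesSummable (fun y hy => ?_)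
      apply unlog_summable he1
      apply LSeriesSummable_of_abscissaOfAbsConv_lt_re
      refine lt_of_le_of_lt hs ?_
      exact_mod_cast (by simpa using hy)
    exact (((LSeries_hasDerivAt hab2).differentiableAt.cexp).const_mul C).differentiableWithinAt
  · intro s _
    exact mul_ne_zero hC0 (Complex.exp_ne_zero _)
  · intro s hs' hs1
    rw [hC s hs' hs1]; ring

/-- away from a point, the orders near it are zero -/
theorem order_punctured {F : ℂ → ℂ} {c : ℕ → ℂ} (hF : EulerFE F c) (z : ℂ) :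
    ∀ᶠ s in 𝓝[≠] z, meromorphicOrderAt F s = 0 := by
  obtain ⟨n, u, hn, hu, huz, hFu⟩ := hF.local_form z
  have h1 : ∀ᶠ s in 𝓝 z, s ≠ z → F s = (s - z) ^ n * u s := eventually_nhdsWithin_iff.mp hFu
  have h2 : ∀ᶠ s in 𝓝 z, (∀ᶠ w in 𝓝 s, w ≠ z → F w = (w - z) ^ n * u w) ∧ AnalyticAt ℂ u s ∧ u s ≠ 0 := by
    filter_upwards [h1.eventually_nhds, hu.eventually_analyticAt,
      hu.continuousAt.eventually_ne huz] with s a b c using ⟨a, b, c⟩
  filter_upwards [mem_nhdsWithin_of_mem_nhds h2, self_mem_nhdsWithin] with s hs hsz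
  obtain ⟨ha, hb, hc⟩ := hs
  have hne : s - z ≠ 0 := sub_ne_zero.mpr hsz
  rw [← WithTop.coe_zero, meromorphicOrderAt_eq_int_iff (hF.meromorphicAt s)]
  refine ⟨fun w => (w - z) ^ n * u w, ?_, ?_, ?_⟩
  · refine AnalyticAt.mul ?_ hb
    exact AnalyticAt.zpow (by fun_prop) hne
  · exact mul_ne_zero (zpow_ne_zero _ hne) hc
  · refine (mem_nhdsWithin_of_mem_nhds ?_)
    filter_upwards [ha, isOpen_ne.mem_nhds hsz] with w h3 h4
    rw [h3 h4]; simp

/-- If some point of `[1/2,1)` is exceptional then there is a largest one. -/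
theorem exists_largest {F L : ℂ → ℂ} {c : ℕ → ℂ} (hF : EulerFE F c) (hL : Differentiable ℂ L)
    (h : ∃ x : ℝ, 1 / 2 ≤ x ∧ x < 1 ∧ meromorphicOrderAt L x < meromorphicOrderAt F x) :
    ∃ β : ℝ, 1 / 2 ≤ β ∧ β < 1 ∧ meromorphicOrderAt L β < meromorphicOrderAt F β ∧
      ∀ x : ℝ, β < x → x < 1 → meromorphicOrderAt F x ≤ meromorphicOrderAt L x := by
  set S : Set ℝ := {x : ℝ | 1 / 2 ≤ x ∧ x < 1 ∧ meromorphicOrderAt L x < meromorphicOrderAt F x}
    with hS
  have hne : S.Nonempty := h
  have hbdd : BddAbove S := ⟨1, fun x hx => hx.2.1.le⟩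
  set β := sSup S with hβ
  have hge : 1 / 2 ≤ β := by
    obtain ⟨x, hx⟩ := hne
    exact hx.1.trans (le_csSup hbdd hx)
  have hle : β ≤ 1 := csSup_le hne (fun x hx => hx.2.1.le)
  have hLnn : ∀ x : ℝ, 0 ≤ meromorphicOrderAt L x := fun x =>
    (hL.analyticAt x).meromorphicOrderAt_nonneg
  -- S has no accumulation point
  have hacc : ∀ x : ℝ, ∃ ε : ℝ, 0 < ε ∧ ∀ y ∈ S, y ≠ x → ε ≤ |y - x| := by
    intro x
    have h1 := order_punctured hF (x : ℂ)
    rw [eventually_nhdsWithin_iff] at h1
    obtain ⟨ε, hε, hball⟩ := Metric.eventually_nhds_iff_ball.mp h1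
    refine ⟨ε, hε, fun y hy hyx => ?_⟩
    by_contra hlt
    push Not at hlt
    have h2 := hball (y : ℂ) (by
      rw [Metric.mem_ball, Complex.dist_eq, ← Complex.ofReal_sub, Complex.norm_real, Real.norm_eq_abs]
      exact hlt) (by
        intro h3
        apply hyx
        have h4 : (y : ℂ) = (x : ℂ) := h3
        exact_mod_cast h4)
    have h3 := hy.2.2
    rw [h2] at h3
    exact absurd h3 (not_lt.mpr (hLnn y))
  have hβS : β ∈ S := by
    by_contra hnot
    obtain ⟨ε, hε, h1⟩ := hacc β
    obtain ⟨y, hy, hy2⟩ := exists_lt_of_lt_csSup hne (show β - ε < β by linarith)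
    have h2 : y ≤ β := le_csSup hbdd hy
    have h3 : y ≠ β := fun h => hnot (h ▸ hy)
    have h4 := h1 y hy h3
    rw [abs_of_nonpos (by linarith)] at h4
    linarith
  refine ⟨β, hge, hβS.2.1, hβS.2.2, fun x h1 h2 => ?_⟩
  by_contra hcon
  push Not at hcon
  have : x ∈ S := ⟨by linarith, h2, hcon⟩
  exact absurd (le_csSup hbdd this) (not_le.mpr h1)

/-- From the real parts to the full coefficients, at the cost of half of the distance to 1. -/
theorem abscissa_full (r : ℕ) {b : ℕ → ℂ} {c : ℕ → ℝ} {E : Set ℕ} {β : ℝ} (hβ1 : β < 1)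
    (hE : ∀ σ : ℝ, β < σ → Summable (E.indicator fun n : ℕ => wt b c n * (n : ℝ) ^ (-σ)))
    (hdom : ∀ n : ℕ, n ∉ E → ‖b n‖ * Real.log n ≤ gc r c n)
    (hg : ∀ s : ℂ, 1 < s.re → LSeriesSummable (fun n => (gc r c n : ℂ)) s)
    (hab : LSeries.abscissaOfAbsConv
      (fun n => ((2 * gc r c n - 2 * (Real.log n * (b n).re) : ℝ) : ℂ)) ≤ β) :
    LSeries.abscissaOfAbsConv ((fun n => (gc r c n : ℂ)) - ldc b) ≤ ((1 + β) / 2 : ℝ) := by
  refine LSeries.abscissaOfAbsConv_le_of_forall_lt_LSeriesSummable (fun σ hσ => ?_)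
  set ε : ℝ := (2 * σ - 1 - β) / 2 with hε
  have hε0 : 0 < ε := by rw [hε]; linarith
  have hσβ : β < σ := by linarith
  -- three summable majorants
  have h1 : Summable (fun n => ‖LSeries.term (fun n => (gc r c n : ℂ)) ((1 + ε : ℝ) : ℂ) n‖) :=
    (hg _ (by simpa using hε0)).norm
  have h2 : Summable (fun n => ‖LSeries.term
      (fun n => ((2 * gc r c n - 2 * (Real.log n * (b n).re) : ℝ) : ℂ)) ((β + ε : ℝ) : ℂ) n‖) := by
    apply Summable.norm
    apply LSeriesSummable_of_abscissaOfAbsConv_lt_re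
    refine lt_of_le_of_lt hab ?_
    rw [Complex.ofReal_re]
    exact_mod_cast (by linarith : β < β + ε)
  have h3 : Summable (fun n => ‖LSeries.term (E.indicator ((fun n => (gc r c n : ℂ)) - ldc b)) (σ : ℂ) n‖) := by
    apply Summable.norm
    refine thin_summable (K := r + 1) (hE σ hσβ) (fun n => ?_)
    rw [Pi.sub_apply]
    refine (norm_sub_le _ _).trans ?_
    rw [Complex.norm_real, ldc, norm_mul, Complex.norm_real, Real.norm_eq_abs,
      Real.norm_of_nonneg (Real.log_natCast_nonneg n)]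
    exact wt_bound r b c n
  refine Summable.of_norm_bounded ((h1.add h2).add h3) (fun n => ?_)
  by_cases hn : n = 0
  · subst hn; simp
  have hn0 : (0 : ℝ) < n := by exact_mod_cast Nat.pos_of_ne_zero hn
  rw [LSeries.norm_term_eq, LSeries.norm_term_eq, LSeries.norm_term_eq, LSeries.norm_term_eq]
  simp only [hn, if_false, Complex.ofReal_re]
  by_cases hnE : n ∈ E
  · rw [Set.indicator_of_mem hnE]
    have : 0 ≤ ‖(gc r c n : ℂ)‖ / (n : ℝ) ^ (1 + ε) := by positivity
    have : 0 ≤ ‖((2 * gc r c n - 2 * (Real.log n * (b n).re) : ℝ) : ℂ)‖ / (n : ℝ) ^ (β + ε) := by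
      positivity
    linarith
  · rw [Set.indicator_of_notMem hnE, norm_zero, zero_div, add_zero]
    have hl : 0 ≤ Real.log n := Real.log_natCast_nonneg n
    have hd := hdom n hnE
    set g := gc r c n with hgdef
    set ρ := Real.log n * (b n).re with hρ
    have hg0 : 0 ≤ g := (mul_nonneg (norm_nonneg _) hl).trans hd
    have hre : |ρ| ≤ ‖b n‖ * Real.log n := by
      rw [hρ, abs_mul, abs_of_nonneg hl, mul_comm]
      exact mul_le_mul_of_nonneg_right (Complex.abs_re_le_norm _) hl
    have hρg : ρ ≤ g := (le_abs_self _).trans (hre.trans hd)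
    have hsq : ‖((fun n => (gc r c n : ℂ)) - ldc b) n‖ ^ 2 ≤ 2 * g * (g - ρ) := by
      rw [Pi.sub_apply, ldc, ← Complex.normSq_eq_norm_sq, Complex.normSq_apply]
      simp only [Complex.sub_re, Complex.sub_im, Complex.ofReal_re, Complex.ofReal_im,
        Complex.re_ofReal_mul, Complex.im_ofReal_mul, zero_sub]
      have h4 : (‖b n‖ * Real.log n) ^ 2 ≤ g ^ 2 :=
        pow_le_pow_left₀ (mul_nonneg (norm_nonneg _) hl) hd 2
      have h5 : ‖b n‖ ^ 2 = (b n).re ^ 2 + (b n).im ^ 2 := by
        rw [← Complex.normSq_eq_norm_sq, Complex.normSq_apply]; ring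
      rw [mul_pow, h5] at h4
      rw [← hgdef, ← hρ]
      have h6 : ρ ^ 2 = Real.log n ^ 2 * (b n).re ^ 2 := by rw [hρ]; ring
      nlinarith
    -- termwise inequality between geometric and arithmetic mean
    set A := ‖(g : ℂ)‖ / (n : ℝ) ^ (1 + ε) with hA
    set B := ‖((2 * g - 2 * ρ : ℝ) : ℂ)‖ / (n : ℝ) ^ (β + ε) with hB
    have hA' : A = g / (n : ℝ) ^ (1 + ε) := by
      rw [hA, Complex.norm_real, Real.norm_of_nonneg hg0]
    have hB' : B = (2 * g - 2 * ρ) / (n : ℝ) ^ (β + ε) := by
      rw [hB, Complex.norm_real, Real.norm_of_nonneg (by linarith)]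
    have hA0 : 0 ≤ A := by rw [hA]; positivity
    have hB0 : 0 ≤ B := by rw [hB]; positivity
    have hprod : (‖((fun n => (gc r c n : ℂ)) - ldc b) n‖ / (n : ℝ) ^ σ) ^ 2 ≤ A * B := by
      rw [div_pow, hA', hB', div_mul_div_comm, ← Real.rpow_add hn0]
      have h7 : ((n : ℝ) ^ σ) ^ 2 = (n : ℝ) ^ (1 + ε + (β + ε)) := by
        rw [← Real.rpow_natCast, ← Real.rpow_mul hn0.le]
        congr 1
        rw [hε]; push_cast; ring
      rw [h7]
      apply div_le_div_of_nonneg_right _ (by positivity)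
      linarith
    have h8 : (‖((fun n => (gc r c n : ℂ)) - ldc b) n‖ / (n : ℝ) ^ σ) ^ 2 ≤ (A + B) ^ 2 := by
      nlinarith [mul_nonneg hA0 hB0, sq_nonneg (A - B)]
    exact le_of_sq_le_sq h8 (by positivity)

/-- Domination from above: the full dichotomy. -/
theorem dominated_dichotomy {F : ℂ → ℂ} {b : ℕ → ℂ} (hF : IsEulerProduct F b) {r : ℕ}
    (hpole : meromorphicOrderAt F 1 = ((-(r : ℤ) : ℤ) : WithTop ℤ))
    {L : ℂ → ℂ} {c : ℕ → ℝ} (hL : IsEulerProduct L (fun n => (c n : ℂ)))
    (hLent : Differentiable ℂ L) {E : Set ℕ} {σ₀ : ℝ} (hσ₀ : σ₀ < 1 / 2)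
    (hE : Summable (E.indicator fun n : ℕ => wt b c n * (n : ℝ) ^ (-σ₀)))
    (hdom : ∀ n : ℕ, n ∉ E → ‖b n‖ * Real.log n ≤ gc r c n) :
    (∀ s : ℂ, s ≠ 1 → F s = riemannZeta s ^ r * L s) ∨
      ∃ β : ℝ, 1 / 2 ≤ β ∧ β < 1 ∧ meromorphicOrderAt L β < meromorphicOrderAt F β ∧
        ∃ V : ℂ → ℂ, DifferentiableOn ℂ V {s | (1 + β) / 2 < s.re} ∧
          (∀ s : ℂ, (1 + β) / 2 < s.re → V s ≠ 0) ∧
          ∀ s : ℂ, (1 + β) / 2 < s.re → s ≠ 1 → F s = riemannZeta s ^ r * L s * V s := by
  rcases dominated hF hpole hL hLent hσ₀ hE hdom with h | h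
  · exact Or.inl h
  right
  obtain ⟨β, hβ0, hβ1, hβ2, hβ3⟩ := exists_largest hF.toEulerFE hLent h
  refine ⟨β, hβ0, hβ1, hβ2, ?_⟩
  have hG := zetaL_EulerFE r hL
  have hP := conjProd_EulerFE hF
  have hR := sq_EulerFE hG
  have hE' : ∀ σ : ℝ, β < σ → Summable (E.indicator fun n : ℕ => wt b c n * (n : ℝ) ^ (-σ)) := by
    intro σ hσ
    refine Summable.of_norm_bounded hE (fun n => ?_)
    have hw : 0 ≤ wt b c n := by
      rw [wt]
      have := Real.log_natCast_nonneg n
      have := ArithmeticFunction.vonMangoldt_nonneg (n := n)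
      positivity
    by_cases hn : n ∈ E
    · rw [Set.indicator_of_mem hn, Set.indicator_of_mem hn]
      by_cases h0 : n = 0
      · subst h0
        have : wt b c 0 = 0 := by simp [wt]
        rw [this]; simp
      · have hn0 : (1 : ℝ) ≤ n := by exact_mod_cast Nat.pos_of_ne_zero h0
        rw [Real.norm_of_nonneg (mul_nonneg hw (by positivity))]
        refine mul_le_mul_of_nonneg_left ?_ hw
        exact Real.rpow_le_rpow_of_exponent_le hn0 (by linarith)
    · rw [Set.indicator_of_notMem hn, Set.indicator_of_notMem hn]; simp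
  have hord : ∀ x : ℝ, β < x → x ≤ 1 →
      meromorphicOrderAt (fun s => F s * conj (F (conj s))) x
        ≤ meromorphicOrderAt (fun s => (riemannZeta s ^ r * L s) * (riemannZeta s ^ r * L s)) x := by
    intro x h1 h2
    rw [order_conjProd hF, order_sq hG]
    have h3 : meromorphicOrderAt F x ≤ meromorphicOrderAt (fun s => riemannZeta s ^ r * L s) x := by
      rcases lt_or_eq_of_le h2 with h4 | h4
      · rw [order_zetaL_real r hLent (by linarith) h4]
        exact hβ3 x h1 h4
      · rw [h4, Complex.ofReal_one, order_zetaL_one r hLent, hpole]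
        have h5 : 0 ≤ meromorphicOrderAt L 1 := (hLent.analyticAt 1).meromorphicOrderAt_nonneg
        exact le_add_of_nonneg_right h5
    exact add_le_add h3 h3
  have hdom' : ∀ n ∉ E, 2 * (Real.log n * (b n).re) ≤ 2 * gc r c n := by
    intro n hn
    have h1 := hdom n hn
    have hl : 0 ≤ Real.log n := Real.log_natCast_nonneg n
    have h2 := mul_le_mul_of_nonneg_left ((le_abs_self _).trans (Complex.abs_re_le_norm (b n))) hl
    linarith
  have hab := landau_global hP hR (fun σ hσ => thin_diff r (hE' σ hσ)) hdom' hord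
  have hfull := abscissa_full r hβ1 hE' hdom hG.summ hab
  -- pass to F / (ζ^r L)
  have hswap : LSeries.abscissaOfAbsConv (ldc b - fun n => (gc r c n : ℂ)) ≤ ((1 + β) / 2 : ℝ) := by
    refine LSeries.abscissaOfAbsConv_le_of_forall_lt_LSeriesSummable (fun y hy => ?_)
    have h1 : LSeriesSummable ((fun n => (gc r c n : ℂ)) - ldc b) (y : ℂ) := by
      apply LSeriesSummable_of_abscissaOfAbsConv_lt_re
      refine lt_of_le_of_lt hfull ?_
      exact_mod_cast (by simpa using hy)
    have h2 := h1.neg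
    rwa [neg_sub] at h2
  obtain ⟨V, hV1, hV2, hV3⟩ := factor hG hF.toEulerFE (by linarith) hswap
  exact ⟨V, hV1, hV2, hV3⟩

/-- One-sided bounds: half-plane comparison. -/
theorem half_plane {F : ℂ → ℂ} {b : ℕ → ℂ} (hF : IsEulerProduct F b) {r : ℕ}
    (hpole : meromorphicOrderAt F 1 = ((-(r : ℤ) : ℤ) : WithTop ℤ))
    {L : ℂ → ℂ} {c : ℕ → ℝ} (hL : IsEulerProduct L (fun n => (c n : ℂ)))
    (hLent : Differentiable ℂ L) {E : Set ℕ} {β : ℝ} (hβ0 : 0 ≤ β) (hβ1 : β < 1)
    (hE : ∀ σ : ℝ, β < σ → Summable (E.indicator fun n : ℕ => wt b c n * (n : ℝ) ^ (-σ)))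
    (h : ((∀ n : ℕ, n ∉ E → (b n).re * Real.log n ≤ gc r c n) ∧
          ∀ x : ℝ, β < x → x < 1 → meromorphicOrderAt F x ≤ meromorphicOrderAt L x) ∨
        ((∀ n : ℕ, n ∉ E → gc r c n ≤ (b n).re * Real.log n) ∧ L 1 ≠ 0 ∧
          ∀ x : ℝ, β < x → x < 1 → meromorphicOrderAt L x ≤ meromorphicOrderAt F x)) :
    (∃ V : ℂ → ℂ, DifferentiableOn ℂ V {s | β < s.re} ∧ (∀ s : ℂ, β < s.re → V s ≠ 0) ∧
      ∀ s : ℂ, β < s.re → s ≠ 1 →
        F s * conj (F (conj s)) = (riemannZeta s ^ r * L s) ^ 2 * V s) ∧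
    ((∀ n, (b n).im = 0) →
      ∃ V : ℂ → ℂ, DifferentiableOn ℂ V {s | β < s.re} ∧ (∀ s : ℂ, β < s.re → V s ≠ 0) ∧
        ∀ s : ℂ, β < s.re → s ≠ 1 → F s = riemannZeta s ^ r * L s * V s) := by
  have hG := zetaL_EulerFE r hL
  have hP := conjProd_EulerFE hF
  have hR := sq_EulerFE hG
  -- absolute convergence of the difference in both cases
  have key : LSeries.abscissaOfAbsConv
      (fun n => ((2 * (Real.log n * (b n).re) - 2 * gc r c n : ℝ) : ℂ)) ≤ β := by
    rcases h with ⟨hdom, hx⟩ | ⟨hdom, hL1, hx⟩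
    · have hord : ∀ x : ℝ, β < x → x ≤ 1 →
          meromorphicOrderAt (fun s => F s * conj (F (conj s))) x
            ≤ meromorphicOrderAt (fun s => (riemannZeta s ^ r * L s) * (riemannZeta s ^ r * L s)) x := by
        intro x h1 h2
        rw [order_conjProd hF, order_sq hG]
        have h3 : meromorphicOrderAt F x
            ≤ meromorphicOrderAt (fun s => riemannZeta s ^ r * L s) x := by
          rcases lt_or_eq_of_le h2 with h4 | h4
          · rw [order_zetaL_real r hLent (by linarith) h4]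
            exact hx x h1 h4
          · rw [h4, Complex.ofReal_one, order_zetaL_one r hLent, hpole]
            have h5 : 0 ≤ meromorphicOrderAt L 1 := (hLent.analyticAt 1).meromorphicOrderAt_nonneg
            exact le_add_of_nonneg_right h5
        exact add_le_add h3 h3
      have hab := landau_global hP hR (fun σ hσ => thin_diff r (hE σ hσ))
        (fun n hn => by linarith [hdom n hn]) hord
      refine LSeries.abscissaOfAbsConv_le_of_forall_lt_LSeriesSummable (fun y hy => ?_)
      have h1 : LSeriesSummable (fun n => ((2 * gc r c n - 2 * (Real.log n * (b n).re) : ℝ) : ℂ))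
          (y : ℂ) := by
        apply LSeriesSummable_of_abscissaOfAbsConv_lt_re
        refine lt_of_le_of_lt hab ?_
        exact_mod_cast (by simpa using hy)
      refine (LSeriesSummable_congr (y : ℂ) (fun {n} _ => ?_)).mp h1.neg
      rw [Pi.neg_apply]; push_cast; ring
    · have hord : ∀ x : ℝ, β < x → x ≤ 1 →
          meromorphicOrderAt (fun s => (riemannZeta s ^ r * L s) * (riemannZeta s ^ r * L s)) x
            ≤ meromorphicOrderAt (fun s => F s * conj (F (conj s))) x := by
        intro x h1 h2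
        rw [order_conjProd hF, order_sq hG]
        have h3 : meromorphicOrderAt (fun s => riemannZeta s ^ r * L s) x
            ≤ meromorphicOrderAt F x := by
          rcases lt_or_eq_of_le h2 with h4 | h4
          · rw [order_zetaL_real r hLent (by linarith) h4]
            exact hx x h1 h4
          · rw [h4, Complex.ofReal_one, order_zetaL_one r hLent, hpole]
            have h5 : meromorphicOrderAt L 1 = 0 := by
              rw [← WithTop.coe_zero, meromorphicOrderAt_eq_int_iff (hLent.analyticAt 1).meromorphicAt]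
              exact ⟨L, hLent.analyticAt 1, hL1, Eventually.of_forall (fun z => by simp)⟩
            rw [h5, add_zero]
        exact add_le_add h3 h3
      have hthin : ∀ σ : ℝ, β < σ → LSeriesSummable (E.indicator fun n =>
          ((2 * (Real.log n * (b n).re) - 2 * gc r c n : ℝ) : ℂ)) σ := by
        intro σ hσ
        have h1 := (thin_diff r (hE σ hσ)).neg
        refine (LSeriesSummable_congr (σ : ℂ) (fun {n} _ => ?_)).mp h1
        rw [Pi.neg_apply]
        by_cases hn : n ∈ E
        · rw [Set.indicator_of_mem hn, Set.indicator_of_mem hn]; push_cast; ring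
        · rw [Set.indicator_of_notMem hn, Set.indicator_of_notMem hn]; simp
      exact landau_global hR hP hthin (fun n hn => by linarith [hdom n hn]) hord
  constructor
  · have he : (fun n : ℕ => ((2 * (Real.log n * (b n).re) : ℝ) : ℂ))
        - (fun n : ℕ => ((2 * gc r c n : ℝ) : ℂ))
        = fun n : ℕ => ((2 * (Real.log n * (b n).re) - 2 * gc r c n : ℝ) : ℂ) := by
      funext n; simp
    obtain ⟨V, hV1, hV2, hV3⟩ := factor hR hP hβ1.le (by rw [he]; exact key)
    refine ⟨V, hV1, hV2, fun s hs hs1 => ?_⟩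
    rw [hV3 s hs hs1]; ring
  · intro hreal
    have hab : LSeries.abscissaOfAbsConv (ldc b - fun n => (gc r c n : ℂ)) ≤ β := by
      refine LSeries.abscissaOfAbsConv_le_of_forall_lt_LSeriesSummable (fun y hy => ?_)
      have h1 : LSeriesSummable (fun n => ((2 * (Real.log n * (b n).re) - 2 * gc r c n : ℝ) : ℂ))
          (y : ℂ) := by
        apply LSeriesSummable_of_abscissaOfAbsConv_lt_re
        refine lt_of_le_of_lt key ?_
        exact_mod_cast (by simpa using hy)
      have h2 := h1.smul (1 / 2)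
      refine (LSeriesSummable_congr (y : ℂ) (fun {n} _ => ?_)).mp h2
      have h3 : b n = ((b n).re : ℂ) := by
        apply Complex.ext
        · simp
        · simp [hreal n]
      rw [Pi.smul_apply, Pi.sub_apply, smul_eq_mul, ldc]
      conv_rhs => rw [h3]
      push_cast; ring
    exact factor hG hF.toEulerFE hβ1.le hab

/-- Domination from below, coefficients of the difference in a sector. -/
theorem dominates_sector {F : ℂ → ℂ} {b : ℕ → ℂ} (hF : IsEulerProduct F b) {r : ℕ}
    (hpole : meromorphicOrderAt F 1 = ((-(r : ℤ) : ℤ) : WithTop ℤ))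
    {L : ℂ → ℂ} {c : ℕ → ℝ} (hL : IsEulerProduct L (fun n => (c n : ℂ)))
    (hLent : Differentiable ℂ L) (hL1 : L 1 ≠ 0)
    (hLx : ∀ x : ℝ, 1 / 2 ≤ x → x < 1 → meromorphicOrderAt L x ≤ meromorphicOrderAt F x)
    {E : Set ℕ} {σ₀ : ℝ} (hσ₀ : σ₀ < 1 / 2)
    (hE : Summable (E.indicator fun n : ℕ => wt b c n * (n : ℝ) ^ (-σ₀)))
    {K : ℝ} (hdom : ∀ n : ℕ, n ∉ E → gc r c n ≤ (b n).re * Real.log n ∧
      |(b n).im| * Real.log n ≤ K * ((b n).re * Real.log n - gc r c n)) :
    ∀ s : ℂ, s ≠ 1 → F s = riemannZeta s ^ r * L s := by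
  have hG := zetaL_EulerFE r hL
  have hP := conjProd_EulerFE hF
  have hR := sq_EulerFE hG
  have hord : ∀ x : ℝ, 1 / 2 ≤ x → x ≤ 1 →
      meromorphicOrderAt (fun s => (riemannZeta s ^ r * L s) * (riemannZeta s ^ r * L s)) x
        ≤ meromorphicOrderAt (fun s => F s * conj (F (conj s))) x := by
    intro x h1 h2
    rw [order_conjProd hF, order_sq hG]
    have h3 : meromorphicOrderAt (fun s => riemannZeta s ^ r * L s) x ≤ meromorphicOrderAt F x := by
      rcases lt_or_eq_of_le h2 with h4 | h4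
      · rw [order_zetaL_real r hLent (by linarith) h4]
        exact hLx x h1 h4
      · rw [h4, Complex.ofReal_one, order_zetaL_one r hLent, hpole]
        have h5 : meromorphicOrderAt L 1 = 0 := by
          rw [← WithTop.coe_zero, meromorphicOrderAt_eq_int_iff (hLent.analyticAt 1).meromorphicAt]
          exact ⟨L, hLent.analyticAt 1, hL1, Eventually.of_forall (fun z => by simp)⟩
        rw [h5, add_zero]
    exact add_le_add h3 h3
  have hdom' : ∀ n ∉ E, 2 * gc r c n ≤ 2 * (Real.log n * (b n).re) := by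
    intro n hn
    have h1 := (hdom n hn).1
    linarith
  have hthin : LSeriesSummable (E.indicator fun n =>
      ((2 * (Real.log n * (b n).re) - 2 * gc r c n : ℝ) : ℂ)) σ₀ := by
    have h1 := (thin_diff r hE).neg
    refine (LSeriesSummable_congr (σ₀ : ℂ) (fun {n} _ => ?_)).mp h1
    rw [Pi.neg_apply]
    by_cases hn : n ∈ E
    · rw [Set.indicator_of_mem hn, Set.indicator_of_mem hn]; push_cast; ring
    · rw [Set.indicator_of_notMem hn, Set.indicator_of_notMem hn]; simp
  have hrig := compare_rigid hR hP hσ₀ hthin hdom' hord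
  have hsumm : LSeriesSummable ((fun n => (gc r c n : ℂ)) - ldc b) σ₀ := by
    have h1 : LSeriesSummable (E.indicator ((fun n => (gc r c n : ℂ)) - ldc b)) σ₀ := by
      refine thin_summable (K := r + 1) hE (fun n => ?_)
      rw [Pi.sub_apply]
      refine (norm_sub_le _ _).trans ?_
      rw [Complex.norm_real, ldc, norm_mul, Complex.norm_real, Real.norm_eq_abs,
        Real.norm_of_nonneg (Real.log_natCast_nonneg n)]
      exact wt_bound r b c n
    refine (LSeriesSummable_congr σ₀ (fun {n} hn => ?_)).mp h1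
    by_cases hnE : n ∈ E
    · rw [Set.indicator_of_mem hnE]
    · rw [Set.indicator_of_notMem hnE]
      by_cases hn1 : n = 1
      · subst hn1
        simp [gc, ldc]
      · have h2 : 2 ≤ n := by omega
        have hl : 0 < Real.log n := Real.log_pos (by exact_mod_cast h2)
        have h3 := hrig n h2
        have h4 := (hdom n hnE).2
        have h5 : gc r c n = Real.log n * (b n).re := by linarith
        have h6 : |(b n).im| * Real.log n ≤ 0 := by
          rw [h5] at h4
          calc |(b n).im| * Real.log n ≤ K * ((b n).re * Real.log n - Real.log n * (b n).re) := h4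
            _ = 0 := by ring
        have h7 : (b n).im = 0 := by
          by_contra h8
          have := mul_pos (abs_pos.mpr h8) hl
          linarith
        have h8 : ((b n).re : ℂ) = b n := by
          apply Complex.ext
          · simp
          · simp [h7]
        rw [Pi.sub_apply, h5, ldc]
        push_cast
        rw [h8]
        simp
  have hab : LSeries.abscissaOfAbsConv ((fun n => (gc r c n : ℂ)) - ldc b) ≤ σ₀ := by
    have := hsumm.abscissaOfAbsConv_le
    simpa using this
  have hrig2 := rigid hF.toEulerFE hG hσ₀ hab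
  exact fun s hs => (eq_of_coeff hF.toEulerFE hG hrig2 hF.tendsto_one (zetaL_tendsto r hL) s hs).symm

/-- The constant function `1` belongs to the class of Euler products. -/
theorem one_isEulerProduct : IsEulerProduct (fun _ => 1) (fun _ => ((0 : ℝ) : ℂ)) where
  log_summable := fun s _ => by
    have : (fun _ : ℕ => ((0 : ℝ) : ℂ)) = 0 := by funext n; simp
    rw [this]; exact LSeriesSummable_zero
  log_series := fun s _ => by
    have : (fun _ : ℕ => ((0 : ℝ) : ℂ)) = 0 := by funext n; simp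
    rw [this, LSeries_zero]; simp
  b_one := by simp
  continuation := ⟨0, fun _ => 1, differentiable_const _, fun s _ => by simp⟩
  functional := by
    refine ⟨1, 0, fun _ => 1, fun _ => 0, 1, one_pos, fun j => one_pos, fun j => by simp,
      by simp, fun s _ _ => by simp⟩

end Pool.Agent.SelPole
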