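import Mathlib

/-! Landau's theorem for Dirichlet series with nonnegative coefficients, local form. -/

namespace Pool.Agent.SelPole

open Complex Filter Topology Set

open LSeries in
/-- If a Dirichlet series with nonnegative coefficients converges absolutely to the right of the
real point `x` and its sum extends to a holomorphic function near `x`, then it converges
absolutely at some point to the left of `x`. -/
theorem landau {c : ℕ → ℝ} (hc : ∀ n, 0 ≤ c n) {x ε : ℝ} (hε : 0 < ε) {h : ℂ → ℂ}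
    (hab : abscissaOfAbsConv (fun n => (c n : ℂ)) ≤ x)
    (hh : DifferentiableOn ℂ h (Metric.ball (x : ℂ) ε))
    (heq : ∀ s ∈ Metric.ball (x : ℂ) ε, x < s.re → h s = LSeries (fun n => (c n : ℂ)) s) :
    ∃ δ : ℝ, 0 < δ ∧ LSeriesSummable (fun n => (c n : ℂ)) ((x - δ : ℝ) : ℂ) := by
  classical
  set C : ℕ → ℂ := fun n => (c n : ℂ) with hC
  set f : ℂ → ℂ := fun s => if s ∈ Metric.ball (x : ℂ) ε then h s else LSeries C s with hf
  obtain ⟨δ, hδ0, hδ1, hδε⟩ : ∃ δ : ℝ, 0 < δ ∧ δ ≤ 1 ∧ 8 * δ < ε ^ 2 := by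
    refine ⟨min 1 (ε ^ 2 / 16), by positivity, min_le_left _ _, ?_⟩
    have := min_le_right (1 : ℝ) (ε ^ 2 / 16)
    nlinarith [sq_pos_of_pos hε]
  refine ⟨δ, hδ0, ?_⟩
  have hLs : ∀ s : ℂ, x < s.re → f s = LSeries C s := by
    intro s hs
    by_cases hb : s ∈ Metric.ball (x : ℂ) ε
    · simp only [hf, hb, if_true]; exact heq s hb hs
    · simp only [hf, hb, if_false]
  have habs : ∀ s : ℂ, x < s.re → abscissaOfAbsConv C < s.re := fun s hs =>
    lt_of_le_of_lt hab (by exact_mod_cast hs)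
  have hopen : IsOpen {s : ℂ | x < s.re} := isOpen_lt continuous_const continuous_re
  -- f is differentiable at the points of interest
  have hdiff : ∀ s : ℂ, (x < s.re ∨ s ∈ Metric.ball (x : ℂ) ε) → DifferentiableAt ℂ f s := by
    intro s hs
    rcases hs with hs | hs
    · have h1 : DifferentiableAt ℂ (LSeries C) s := (LSeries_hasDerivAt (habs s hs)).differentiableAt
      refine h1.congr_of_eventuallyEq ?_
      filter_upwards [hopen.mem_nhds hs] with z hz using hLs z hz
    · have h1 : DifferentiableAt ℂ h s := (hh s hs).differentiableAt (Metric.isOpen_ball.mem_nhds hs)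
      refine h1.congr_of_eventuallyEq ?_
      filter_upwards [Metric.isOpen_ball.mem_nhds hs] with z hz
      simp only [hf, hz, if_true]
  have hball : DifferentiableOn ℂ f (Metric.ball ((x + 1 : ℝ) : ℂ) (1 + 2 * δ)) := by
    intro s hs
    refine (hdiff s ?_).differentiableWithinAt
    by_cases hx : x < s.re
    · exact Or.inl hx
    · right
      push Not at hx
      rw [Metric.mem_ball, Complex.dist_eq] at hs ⊢
      have e1 : ‖s - ((x + 1 : ℝ) : ℂ)‖ ^ 2 = (s.re - (x + 1)) ^ 2 + s.im ^ 2 := by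
        rw [← Complex.normSq_eq_norm_sq, Complex.normSq_apply]; simp; ring
      have e2 : ‖s - (x : ℂ)‖ ^ 2 = (s.re - x) ^ 2 + s.im ^ 2 := by
        rw [← Complex.normSq_eq_norm_sq, Complex.normSq_apply]; simp; ring
      have e3 : ‖s - ((x + 1 : ℝ) : ℂ)‖ ^ 2 < (1 + 2 * δ) ^ 2 :=
        pow_lt_pow_left₀ hs (norm_nonneg _) two_ne_zero
      have e4 : ‖s - (x : ℂ)‖ ^ 2 < ε ^ 2 := by nlinarith
      exact lt_of_pow_lt_pow_left₀ 2 hε.le e4
  have hz : ((x - δ : ℝ) : ℂ) ∈ Metric.ball ((x + 1 : ℝ) : ℂ) (1 + 2 * δ) := by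
    rw [Metric.mem_ball, Complex.dist_eq, ← Complex.ofReal_sub, Complex.norm_real,
      Real.norm_eq_abs]
    rw [show x - δ - (x + 1) = -(1 + δ) by ring, abs_neg, abs_of_pos (by linarith)]
    linarith
  have hT := Complex.hasSum_taylorSeries_on_ball hball hz
  set a : ℝ := x + 1 with ha
  -- iterated derivatives
  have hit : ∀ k : ℕ, iteratedDeriv k f (a : ℂ) = (-1) ^ k * LSeries (logMul^[k] C) a := by
    intro k
    rw [← LSeries_iteratedDeriv k (habs _ (by simp [ha]))]
    apply Filter.EventuallyEq.iteratedDeriv_eq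
    filter_upwards [hopen.mem_nhds (show x < ((a : ℝ) : ℂ).re by simp [ha])] with z hz using hLs z hz
  have hlm : ∀ (k n : ℕ), (logMul^[k] C) n = (((Real.log n) ^ k * c n : ℝ) : ℂ) := by
    intro k
    induction k with
    | zero => intro n; simp [hC]
    | succ k ih =>
      intro n
      rw [Function.iterate_succ_apply']
      simp only [logMul, ih]
      rw [← Complex.natCast_log]
      push_cast
      ring
  set t : ℕ → ℝ := fun n => if n = 0 then 0 else c n * (n : ℝ) ^ (-a) with ht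
  have ht0 : ∀ n, 0 ≤ t n := by
    intro n; simp only [ht]; split_ifs
    · exact le_rfl
    · exact mul_nonneg (hc n) (Real.rpow_nonneg (Nat.cast_nonneg n) _)
  have hterm : ∀ k n : ℕ, term (logMul^[k] C) (a : ℂ) n = (((Real.log n) ^ k * t n : ℝ) : ℂ) := by
    intro k n
    by_cases hn : n = 0
    · simp [hn, ht]
    · rw [term_of_ne_zero hn, hlm]
      simp only [ht, hn, if_false]
      have : ((n : ℂ) ^ (a : ℂ)) = (((n : ℝ) ^ a : ℝ) : ℂ) := by
        rw [Complex.ofReal_cpow (Nat.cast_nonneg n)]; simp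
      rw [this, Real.rpow_neg (Nat.cast_nonneg n)]
      push_cast
      ring
  have hsumk : ∀ k : ℕ, Summable (fun n : ℕ => (Real.log n) ^ k * t n) := by
    intro k
    have h1 : LSeriesSummable (logMul^[k] C) (a : ℂ) := by
      apply LSeriesSummable_of_abscissaOfAbsConv_lt_re
      rw [absicssaOfAbsConv_logPowMul]
      exact habs _ (by simp [ha])
    have h2 : Summable (fun n : ℕ => (((Real.log n) ^ k * t n : ℝ) : ℂ)) := by
      refine h1.congr ?_
      intro n; rw [hterm]
    exact_mod_cast h2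
  have hLk : ∀ k : ℕ, LSeries (logMul^[k] C) (a : ℂ) = ((∑' n : ℕ, (Real.log n) ^ k * t n : ℝ) : ℂ) := by
    intro k
    rw [LSeries, Complex.ofReal_tsum]
    exact tsum_congr (fun n => hterm k n)
  have hT2 : HasSum (fun k : ℕ => (1 + δ) ^ k / (k.factorial : ℝ) * ∑' n : ℕ, (Real.log n) ^ k * t n)
      (f ((x - δ : ℝ) : ℂ)).re := by
    have := Complex.hasSum_re hT
    refine this.congr_fun ?_ |> fun h => h
    intro k
    rw [hit, hLk]
    have e1 : (((x - δ : ℝ) : ℂ) - ((a : ℝ) : ℂ)) = ((-(1 + δ) : ℝ) : ℂ) := by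
      rw [← Complex.ofReal_sub]; congr 1; rw [ha]; ring
    rw [e1]
    have e2 : ((k.factorial : ℂ)⁻¹ • (((-(1 + δ) : ℝ) : ℂ)) ^ k •
        ((-1 : ℂ) ^ k * ((∑' n : ℕ, (Real.log n) ^ k * t n : ℝ) : ℂ)))
        = (((1 + δ) ^ k / (k.factorial : ℝ) * ∑' n : ℕ, (Real.log n) ^ k * t n : ℝ) : ℂ) := by
      simp only [smul_eq_mul]
      rw [show (((-(1 + δ) : ℝ) : ℂ)) = (-1 : ℂ) * ((1 + δ : ℝ) : ℂ) by push_cast; ring, mul_pow]
      have e3 : ((-1 : ℂ)) ^ k * (-1) ^ k = 1 := by
        rw [← mul_pow]; simp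
      rw [Complex.ofReal_mul, Complex.ofReal_div, Complex.ofReal_pow, Complex.ofReal_natCast]
      linear_combination ((k.factorial : ℂ)⁻¹ * (((1 + δ : ℝ) : ℂ)) ^ k *
        ((∑' n : ℕ, (Real.log n) ^ k * t n : ℝ) : ℂ)) * e3
    rw [e2, Complex.ofReal_re]
  -- partial sums
  have hpart : ∀ S : Finset ℕ, ∑ n ∈ S, t n * Real.exp ((1 + δ) * Real.log n)
      ≤ (f ((x - δ : ℝ) : ℂ)).re := by
    intro S
    have h1 : HasSum (fun k : ℕ => ∑ n ∈ S, t n * (((1 + δ) * Real.log n) ^ k / (k.factorial : ℝ)))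
        (∑ n ∈ S, t n * Real.exp ((1 + δ) * Real.log n)) := by
      apply hasSum_sum
      intro n _
      apply HasSum.mul_left
      have := NormedSpace.expSeries_div_hasSum_exp ((1 + δ) * Real.log n)
      rw [← Real.exp_eq_exp_ℝ] at this
      exact this
    refine hasSum_le ?_ h1 hT2
    intro k
    have h2 : ∑ n ∈ S, t n * (((1 + δ) * Real.log n) ^ k / (k.factorial : ℝ))
        = (1 + δ) ^ k / (k.factorial : ℝ) * ∑ n ∈ S, (Real.log n) ^ k * t n := by
      rw [Finset.mul_sum]
      refine Finset.sum_congr rfl (fun n _ => ?_)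
      rw [mul_pow]; ring
    rw [h2]
    refine mul_le_mul_of_nonneg_left ?_ (by positivity)
    exact (hsumk k).sum_le_tsum S (fun n _ => mul_nonneg (pow_nonneg (Real.log_natCast_nonneg n) k)
      (ht0 n))
  have hS : Summable (fun n => t n * Real.exp ((1 + δ) * Real.log n)) :=
    summable_of_sum_le (fun n => mul_nonneg (ht0 n) (Real.exp_pos _).le) hpart
  have hfin : Summable (fun n => ‖term C ((x - δ : ℝ) : ℂ) n‖) := by
    refine hS.congr ?_
    intro n
    rw [norm_term_eq]
    by_cases hn : n = 0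
    · simp [hn, ht]
    · simp only [ht, hn, if_false, hC]
      have hn0 : (0 : ℝ) < n := by exact_mod_cast Nat.pos_of_ne_zero hn
      rw [Complex.norm_real, Real.norm_of_nonneg (hc n), Complex.ofReal_re]
      rw [show Real.exp ((1 + δ) * Real.log n) = (n : ℝ) ^ (1 + δ) by
        rw [Real.rpow_def_of_pos hn0, mul_comm]]
      rw [mul_assoc, ← Real.rpow_add hn0, div_eq_mul_inv, ← Real.rpow_neg hn0.le]
      congr 2
      rw [ha]; ring
  exact hfin.of_norm

end Pool.Agent.SelPole
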