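import Pool.Agent.Lib.ZetaCrude

/-! The zeta function has no zeros on the real segment (0,1). -/

namespace Pool.Agent.SelPole

open Complex Filter Topology Set

theorem zeta_ne_zero_real {x : ℝ} (h0 : 0 < x) (h1 : x < 1) : riemannZeta (x : ℂ) ≠ 0 := by
  -- real form of the terms
  set γ : ℕ → ℝ := fun n => (x - 1) * (n + 1 : ℝ) ^ (-x) + (n + 2 : ℝ) ^ (1 - x)
    - (n + 1 : ℝ) ^ (1 - x) with hγ
  have hg : ∀ n, Lib.ZetaCrude.g n (x : ℂ) = (γ n : ℂ) := by
    intro n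
    simp only [Lib.ZetaCrude.g, hγ]
    have e1 : ∀ (y : ℝ) (a : ℝ), 0 ≤ y → ((y : ℂ)) ^ ((a : ℝ) : ℂ) = ((y ^ a : ℝ) : ℂ) := by
      intro y a hy; rw [Complex.ofReal_cpow hy]
    have h2 : (0 : ℝ) ≤ (n : ℝ) + 1 := by positivity
    have h3 : (0 : ℝ) ≤ (n : ℝ) + 2 := by positivity
    rw [show -(x : ℂ) = ((-x : ℝ) : ℂ) by simp, show 1 - (x : ℂ) = ((1 - x : ℝ) : ℂ) by simp,
      e1 _ _ h2, e1 _ _ h2, e1 _ _ h3]
    push_cast
    ring
  -- lower bound
  set τ : ℕ → ℝ := fun n => (n + 1 : ℝ) ^ (-x) - (n + 2 : ℝ) ^ (-x) with hτ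
  have hlow : ∀ n, -(1 - x) * τ n ≤ γ n := by
    intro n
    have ha : (0 : ℝ) < (n : ℝ) + 1 := by positivity
    have hlt : (n : ℝ) + 1 < (n : ℝ) + 2 := by linarith
    have hd : ∀ y ∈ Ioo ((n : ℝ) + 1) ((n : ℝ) + 2), HasDerivAt (fun y : ℝ => y ^ (1 - x))
        ((1 - x) * y ^ (1 - x - 1)) y := by
      intro y hy
      have := Real.hasDerivAt_rpow_const (x := y) (p := 1 - x) (Or.inl (by linarith [hy.1]))
      exact this
    have hc : ContinuousOn (fun y : ℝ => y ^ (1 - x)) (Icc ((n : ℝ) + 1) ((n : ℝ) + 2)) := by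
      intro y hy
      exact (Real.continuousAt_rpow_const y (1 - x) (Or.inl (by linarith [hy.1]))).continuousWithinAt
    obtain ⟨ξ, hξ, hξ2⟩ := exists_hasDerivAt_eq_slope _ _ hlt hc hd
    have h4 : (n : ℝ) + 2 - ((n : ℝ) + 1) = 1 := by ring
    rw [h4, div_one] at hξ2
    have h5 : ξ ^ (1 - x - 1) = ξ ^ (-x) := by congr 1; ring
    rw [h5] at hξ2
    have h6 : ((n : ℝ) + 2) ^ (-x) ≤ ξ ^ (-x) :=
      Real.rpow_le_rpow_of_nonpos (by linarith [hξ.1]) hξ.2.le (by linarith)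
    have h7 := mul_le_mul_of_nonneg_left h6 (show 0 ≤ 1 - x by linarith)
    simp only [hτ, hγ]
    linarith
  -- telescoping sum
  have htel : HasSum τ 1 := by
    have hnn : ∀ n, 0 ≤ τ n := by
      intro n
      have : ((n : ℝ) + 2) ^ (-x) ≤ ((n : ℝ) + 1) ^ (-x) :=
        Real.rpow_le_rpow_of_nonpos (by positivity) (by linarith) (by linarith)
      simp only [hτ]; linarith
    rw [hasSum_iff_tendsto_nat_of_nonneg hnn]
    have hs : ∀ N : ℕ, ∑ n ∈ Finset.range N, τ n = 1 - ((N : ℝ) + 1) ^ (-x) := by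
      intro N
      induction N with
      | zero => simp
      | succ N ih =>
        rw [Finset.sum_range_succ, ih]
        simp only [hτ]
        push_cast
        ring_nf
    have h2 : Tendsto (fun N : ℕ => 1 - ((N : ℝ) + 1) ^ (-x)) atTop (𝓝 (1 - 0)) := by
      refine tendsto_const_nhds.sub ?_
      exact (tendsto_rpow_neg_atTop h0).comp
        (tendsto_atTop_add_const_right _ _ tendsto_natCast_atTop_atTop)
    rw [sub_zero] at h2
    exact h2.congr (fun N => (hs N).symm)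
  have hsumg : Summable (fun n => Lib.ZetaCrude.g n (x : ℂ)) := by
    apply Summable.of_norm_bounded (g := fun n : ℕ => ‖(x : ℂ) - 1‖ * ‖(x : ℂ)‖ *
      (n + 1 : ℝ) ^ (-(x : ℂ).re - 1))
    · exact (Lib.ZetaCrude.summable_rpow_aux (by simpa using h0)).mul_left _
    · intro n; exact Lib.ZetaCrude.norm_g_le n _ (by simpa using h0.le)
  have hsumγ : Summable γ := by
    have : Summable (fun n => (γ n : ℂ)) := hsumg.congr hg
    exact_mod_cast this
  have hGre : x ≤ (Lib.ZetaCrude.G (x : ℂ)).re := by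
    rw [Lib.ZetaCrude.G, tsum_congr hg, ← Complex.ofReal_tsum]
    simp only [Complex.add_re, Complex.one_re, Complex.ofReal_re]
    have h2 : -(1 - x) * 1 ≤ ∑' n, γ n :=
      hasSum_le hlow (htel.mul_left _) hsumγ.hasSum
    linarith
  intro hz
  have hx1 : (x : ℂ) ≠ 1 := by
    intro h
    have : x = 1 := by exact_mod_cast h
    linarith
  have h3 := riemannZeta_eq_inv_sub_mul hx1
  rw [hz, ← Lib.ZetaCrude.G_eq (by simpa using h0)] at h3
  have h4 : Lib.ZetaCrude.G (x : ℂ) = 0 := by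
    have h5 : ((x : ℂ) - 1)⁻¹ ≠ 0 := inv_ne_zero (sub_ne_zero.mpr hx1)
    exact (mul_eq_zero.mp h3.symm).resolve_left h5
  rw [h4] at hGre
  simp at hGre
  linarith

end Pool.Agent.SelPole
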