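import Pool.Agent.SelPole.Class
import Pool.Agent.SelPole.ZetaReal

/-! Comparison theorems. -/

namespace Pool.Agent.SelPole

open Complex Filter Topology Set
open scoped ComplexConjugate

/-- Comparison in a half-plane. -/
theorem compare_half {P R : ℂ → ℂ} {p q : ℕ → ℝ} (hP : EulerFE P (fun n => (p n : ℂ)))
    (hR : EulerFE R (fun n => (q n : ℂ))) {E : Set ℕ} {β : ℝ} (hβ : β ≤ 1)
    (hE : ∀ σ : ℝ, β < σ → LSeriesSummable (E.indicator (fun n => ((q n - p n : ℝ) : ℂ))) σ)
    (hdom : ∀ n ∉ E, p n ≤ q n)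
    (hord : ∀ x : ℝ, β < x → x ≤ 1 → meromorphicOrderAt P x ≤ meromorphicOrderAt R x) :
    ∃ V : ℂ → ℂ, DifferentiableOn ℂ V {s | β < s.re} ∧ (∀ s : ℂ, β < s.re → V s ≠ 0) ∧
      ∀ s : ℂ, β < s.re → s ≠ 1 → R s = P s * V s := by
  have hab := landau_global hP hR hE hdom hord
  have he' : (fun n => (q n : ℂ)) - (fun n => (p n : ℂ)) = fun n => ((q n - p n : ℝ) : ℂ) := by
    funext n; simp
  obtain ⟨C, hC0, hC⟩ := quotient hP hR hβ (by rw [he']; exact hab)
  rw [he'] at hC
  have he1 : (fun n => ((q n - p n : ℝ) : ℂ)) 1 = 0 := by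
    rw [← he', Pi.sub_apply, hP.one, hR.one, sub_zero]
  refine ⟨fun s => C * exp (LSeries (unlog (fun n => ((q n - p n : ℝ) : ℂ))) s), ?_, ?_, ?_⟩
  · intro s hs
    have hab2 : LSeries.abscissaOfAbsConv (unlog (fun n => ((q n - p n : ℝ) : ℂ))) < s.re := by
      refine lt_of_le_of_lt ?_ (show ((β : ℝ) : EReal) < s.re by exact_mod_cast hs)
      refine LSeries.abscissaOfAbsConv_le_of_forall_lt_LSeriesSummable (fun y hy => ?_)
      apply unlog_summable he1
      apply LSeriesSummable_of_abscissaOfAbsConv_lt_re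
      refine lt_of_le_of_lt hab ?_
      exact_mod_cast (by simpa using hy)
    exact (((LSeries_hasDerivAt hab2).differentiableAt.cexp).const_mul C).differentiableWithinAt
  · intro s _
    exact mul_ne_zero hC0 (Complex.exp_ne_zero _)
  · intro s hs hs1
    rw [hC s hs hs1]; ring

/-- Rigidity from domination. -/
theorem compare_rigid {P R : ℂ → ℂ} {p q : ℕ → ℝ} (hP : EulerFE P (fun n => (p n : ℂ)))
    (hR : EulerFE R (fun n => (q n : ℂ))) {E : Set ℕ} {σ₀ : ℝ} (hσ₀ : σ₀ < 1 / 2)
    (hE : LSeriesSummable (E.indicator (fun n => ((q n - p n : ℝ) : ℂ))) σ₀)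
    (hdom : ∀ n ∉ E, p n ≤ q n)
    (hord : ∀ x : ℝ, 1 / 2 ≤ x → x ≤ 1 → meromorphicOrderAt P x ≤ meromorphicOrderAt R x) :
    ∀ n : ℕ, 2 ≤ n → q n = p n := by
  have he' : (fun n => (q n : ℂ)) - (fun n => (p n : ℂ)) = fun n => ((q n - p n : ℝ) : ℂ) := by
    funext n; simp
  have hE' : ∀ σ : ℝ, 1 / 2 < σ →
      LSeriesSummable (E.indicator (fun n => ((q n - p n : ℝ) : ℂ))) σ := by
    intro σ hσ
    exact hE.of_re_le_re (by simp; linarith)
  have h1 := landau_global (β := 1 / 2) hP hR hE' hdom (fun x h1 h2 => hord x h1.le h2)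
  obtain ⟨δ, hδ, h2⟩ := landau_local hP hR (x := 1 / 2) (by norm_num) hσ₀ hE hdom h1
    (hord (1 / 2) le_rfl (by norm_num))
  have h3 := rigid hP hR (β := 1 / 2 - δ) (by linarith) (by rw [he']; exact h2)
  intro n hn
  exact_mod_cast h3 n hn

/-- Orders of the conjugate function at real points. -/
theorem order_conj {F : ℂ → ℂ} {c : ℕ → ℂ} (hF : EulerFE F c)
    {d : ℕ → ℂ} (hF' : EulerFE (fun s => conj (F (conj s))) d) (x : ℝ) :
    meromorphicOrderAt (fun s => conj (F (conj s))) x = meromorphicOrderAt F x := by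
  obtain ⟨n, u, hn, hu, hux, hFu⟩ := hF.local_form (x : ℂ)
  rw [hn, meromorphicOrderAt_eq_int_iff (hF'.meromorphicAt x)]
  have hx : conj (x : ℂ) = x := Complex.conj_ofReal x
  have hcont : Continuous (fun s : ℂ => conj s) := Complex.continuous_conj
  refine ⟨fun s => conj (u (conj s)), ?_, ?_, ?_⟩
  · -- analyticity
    have h1 : ∀ᶠ s in 𝓝 (x : ℂ), AnalyticAt ℂ u s := hu.eventually_analyticAt
    have h2 : ∀ᶠ s in 𝓝 (x : ℂ), AnalyticAt ℂ u (conj s) := by
      have h3 : Tendsto (fun s : ℂ => conj s) (𝓝 (x : ℂ)) (𝓝 (x : ℂ)) := by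
        have := hcont.tendsto (x : ℂ)
        rwa [hx] at this
      exact h3.eventually h1
    have h4 : ∀ᶠ s in 𝓝 (x : ℂ), DifferentiableAt ℂ (fun s => conj (u (conj s))) s := by
      filter_upwards [h2] with s hs
      have h5 : DifferentiableAt ℂ (conj ∘ u ∘ conj) (conj (conj s)) :=
        (hs.differentiableAt).conj_conj
      rw [Complex.conj_conj] at h5
      exact h5
    exact Complex.analyticAt_iff_eventually_differentiableAt.mpr h4
  · simp only [hx]
    intro h
    apply hux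
    simpa using h
  · have h3 : Tendsto (fun s : ℂ => conj s) (𝓝[≠] (x : ℂ)) (𝓝[≠] (x : ℂ)) := by
      refine tendsto_nhdsWithin_of_tendsto_nhds_of_eventually_within _ ?_ ?_
      · have := (hcont.tendsto (x : ℂ)).mono_left (nhdsWithin_le_nhds (s := {(x : ℂ)}ᶜ))
        rwa [hx] at this
      · filter_upwards [self_mem_nhdsWithin] with s hs h
        apply hs
        have h5 := congrArg conj h
        rw [Complex.conj_conj, hx] at h5
        exact h5
    filter_upwards [h3.eventually hFu] with s hs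
    rw [hs, smul_eq_mul, map_mul, map_zpow₀, map_sub, Complex.conj_conj, hx]

/-- Values at infinity. -/
theorem IsEulerProduct.tendsto_one {F : ℂ → ℂ} {b : ℕ → ℂ} (hF : IsEulerProduct F b) :
    Tendsto (fun x : ℝ => F x) atTop (𝓝 1) := by
  have hab : LSeries.abscissaOfAbsConv b < ⊤ :=
    lt_of_le_of_lt (abs_le_one hF.log_summable) (EReal.coe_lt_top 1)
  have h1 := LSeries.tendsto_atTop hab
  rw [hF.b_one] at h1
  have h2 := (Complex.continuous_exp.tendsto 0).comp h1
  rw [Complex.exp_zero] at h2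
  refine h2.congr' ?_
  filter_upwards [eventually_gt_atTop 1] with x hx
  rw [hF.log_series (x : ℂ) (by simpa using hx)]
  rfl

theorem zeta_tendsto_one : Tendsto (fun x : ℝ => riemannZeta x) atTop (𝓝 1) := by
  have hab : LSeries.abscissaOfAbsConv (1 : ℕ → ℂ) < ⊤ := by
    refine lt_of_le_of_lt (LSeries.abscissaOfAbsConv_le_of_forall_lt_LSeriesSummable (x := 1)
      (fun y hy => ?_)) (EReal.coe_lt_top 1)
    exact LSeriesSummable_one_iff.mpr (by simpa using hy)
  have h1 := LSeries.tendsto_atTop hab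
  rw [Pi.one_apply] at h1
  refine h1.congr' ?_
  filter_upwards [eventually_gt_atTop 1] with x hx
  rw [LSeries_one_eq_riemannZeta (by simpa using hx)]

/-- If the coefficients agree then the functions agree. -/
theorem eq_of_coeff {P R : ℂ → ℂ} {p q : ℕ → ℂ} (hP : EulerFE P p) (hR : EulerFE R q)
    (h : ∀ n : ℕ, 2 ≤ n → q n = p n) (hP1 : Tendsto (fun x : ℝ => P x) atTop (𝓝 1))
    (hR1 : Tendsto (fun x : ℝ => R x) atTop (𝓝 1)) (s : ℂ) (hs : s ≠ 1) : R s = P s := by
  have hz : ∀ n : ℕ, n ≠ 0 → (q - p) n = (0 : ℕ → ℂ) n := by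
    intro n hn
    rw [Pi.sub_apply, Pi.zero_apply, sub_eq_zero]
    by_cases h1 : n = 1
    · rw [h1, hP.one, hR.one]
    · exact h n (by omega)
  have hab : LSeries.abscissaOfAbsConv (q - p) ≤ ((min 1 (s.re - 1) : ℝ) : EReal) := by
    rw [LSeries.abscissaOfAbsConv_congr (g := 0) (fun hn => hz _ hn)]
    refine LSeries.abscissaOfAbsConv_le_of_forall_lt_LSeriesSummable (fun y _ => ?_)
    exact LSeriesSummable_zero
  obtain ⟨C, hC0, hC⟩ := quotient hP hR (min_le_left _ _) hab
  have hex : ∀ z : ℂ, exp (LSeries (unlog (q - p)) z) = 1 := by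
    intro z
    have : LSeries (unlog (q - p)) z = 0 := by
      rw [LSeries_congr (g := 0) (fun {n} hn => by simp [unlog, hz n hn]) z]
      simp
    rw [this, Complex.exp_zero]
  have hC' : ∀ z : ℂ, min 1 (s.re - 1) < z.re → z ≠ 1 → R z = C * P z := by
    intro z h1 h2
    rw [hC z h1 h2, hex, mul_one]
  have hC1 : C = 1 := by
    have h1 : Tendsto (fun x : ℝ => C * P x) atTop (𝓝 (C * 1)) := hP1.const_mul C
    have h2 : Tendsto (fun x : ℝ => C * P x) atTop (𝓝 1) := by
      refine hR1.congr' ?_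
      filter_upwards [eventually_gt_atTop 1] with x hx
      refine hC' (x : ℂ) ?_ ?_
      · rw [Complex.ofReal_re]; exact lt_of_le_of_lt (min_le_left _ _) hx
      · intro h
        have : x = 1 := by exact_mod_cast h
        linarith
    have := tendsto_nhds_unique h1 h2
    simpa using this
  rw [hC' s (by
    have := min_le_right 1 (s.re - 1)
    linarith) hs, hC1, one_mul]

end Pool.Agent.SelPole
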